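import Pool.Agent.DBX.SER.Stmts

set_option autoImplicit false

/-! # MP_2c751f_ag, squad DBX, area SER, module DEN -/

namespace Pool.Agent.DBX.SER

open Pool.Agent.DBX

noncomputable section

universe u v w

namespace DEN_

theorem den2 (Λ : Type v) [CommRing Λ] (m r : ℕ) (e : ℤ) (τ : Finset (Fin m)) (v : Fin m)
    (y : Fin r → LP Λ m) (hy : y ∈ OX Λ m r e τ) : ∃ N0 : ℕ, ∀ N : ℕ, N0 ≤ N →
      (mo Λ (dv τ v N) : LP Λ m) • y ∈ OX Λ m r e {v} := by
  refine ⟨∑ a, ∑ α ∈ (y a).coeff.support, ∑ w, (α w).natAbs, fun N hN => ?_⟩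
  rw [mem_OX] at hy ⊢
  intro a
  rw [Pi.smul_apply, smul_eq_mul, mem_OO]
  intro β hβ
  rw [coeff_mo_mul] at hβ
  have hα := (mem_OO.mp (hy a)) _ hβ
  have hsum : ∑ w, β w = e := by
    have h1 := hα.1
    simp only [Pi.sub_apply, Finset.sum_sub_distrib] at h1
    have h2 := dv_sum τ v N
    rw [h2, sub_zero] at h1
    exact h1
  refine ⟨hsum, fun w hw => ?_⟩
  rw [Finset.mem_singleton] at hw
  have h3 : ((β - dv τ v N) w).natAbs ≤ N := by
    refine le_trans ?_ hN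
    refine le_trans ?_ (Finset.single_le_sum (f := fun a => ∑ α ∈ (y a).coeff.support,
      ∑ w, (α w).natAbs) (fun _ _ => Nat.zero_le _) (Finset.mem_univ a))
    refine le_trans ?_ (Finset.single_le_sum (f := fun α : Fin m → ℤ => ∑ w, (α w).natAbs)
      (fun _ _ => Nat.zero_le _) (Finsupp.mem_support_iff.2 hβ))
    exact Finset.single_le_sum (f := fun w => ((β - dv τ v N) w).natAbs)
      (fun _ _ => Nat.zero_le _) (Finset.mem_univ w)
  have h4 : (β - dv τ v N) w = β w - (if w ∈ τ then (N : ℤ) else 0) := by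
    simp only [Pi.sub_apply, dv, if_neg hw, sub_zero]
  by_cases hwt : w ∈ τ
  · rw [h4, if_pos hwt] at h3
    omega
  · have h5 := hα.2 w hwt
    rw [h4, if_neg hwt, sub_zero] at h5
    exact h5

theorem den1 (Λ : Type v) (Q : Type u) (𝕄 : Type u) [CommRing Λ] [CommRing Q] [Algebra Λ Q]
    [AddCommGroup 𝕄] [Module Λ 𝕄] [Module Q 𝕄] [IsScalarTower Λ Q 𝕄] (m : ℕ) (h : Fin m → Qˣ)
    (M : Finset (Fin m) → Submodule Λ 𝕄) (hM : Coh h M) (τ : Finset (Fin m)) (v : Fin m)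
    (hv : v ∈ τ) (x : 𝕄) (hx : x ∈ M τ) : ∃ N0 : ℕ, ∀ N : ℕ, N0 ≤ N →
      (hm h (dv τ v N) : Q) • x ∈ M {v} := by
  have hsub : ({v} : Finset (Fin m)) ⊆ τ := Finset.singleton_subset_iff.2 hv
  have hne : ({v} : Finset (Fin m)).Nonempty := Finset.singleton_nonempty v
  have h1 := hM.loc {v} τ hne hsub x hx
  clear hx
  induction h1 using Submodule.span_induction with
  | mem x hx =>
    refine ⟨0, fun N _ => ?_⟩
    exact hM.smul {v} hne _ (hm_mem_Prg h hne (dv_Adm_single τ v (Int.natCast_nonneg N))) x hx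
  | zero =>
    refine ⟨0, fun N _ => ?_⟩
    rw [smul_zero]
    exact (M {v}).zero_mem
  | add x y _ _ hx hy =>
    obtain ⟨N1, h1⟩ := hx
    obtain ⟨N2, h2⟩ := hy
    refine ⟨max N1 N2, fun N hN => ?_⟩
    rw [smul_add]
    exact (M {v}).add_mem (h1 N (le_trans (le_max_left _ _) hN))
      (h2 N (le_trans (le_max_right _ _) hN))
  | smul a x _ hx =>
    obtain ⟨N1, h1⟩ := hx
    obtain ⟨b, hb, hab⟩ := exists_ev h a.2
    obtain ⟨N2, h2⟩ := den2 Λ m 1 0 τ v (fun _ => b) (mem_OX.2 fun _ => hb)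
    refine ⟨N1 + N2, fun N hN => ?_⟩
    have h3 := mem_OX.1 (h2 N2 le_rfl) 0
    rw [Pi.smul_apply, smul_eq_mul] at h3
    have h4 := ev_mem_Prg h hne h3
    rw [map_mul, ev_mo, hab] at h4
    have h5 := hM.smul {v} hne _ h4 _ (h1 (N - N2) (by omega))
    have h6 : (dv τ v (N : ℤ)) = dv τ v (N2 : ℤ) + dv τ v ((N - N2 : ℕ) : ℤ) := by
      rw [← dv_add]
      congr 1
      omega
    rw [h6, hm_add, Units.val_mul]
    have h7 : (a • x : 𝕄) = (a : Q) • x := rfl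
    rw [h7]
    convert h5 using 1
    rw [smul_smul, smul_smul]
    congr 1
    ring

end DEN_

theorem DEN : Stmt_DEN := by
  refine ⟨?_, ?_, ?_⟩
  · intro Λ Q 𝕄 _ _ _ _ _ _ _ m h M hM τ v hv x hx
    exact DEN_.den1 Λ Q 𝕄 m h M hM τ v hv x hx
  · intro Λ _ m r e τ v y hy
    exact DEN_.den2 Λ m r e τ v y hy
  · intro Λ Q _ _ _ _ m h σ
    have hfin : Set.Finite {z : Q | ∃ v ∈ σ, ∃ w, z = (h w : Q) * ((h v)⁻¹ : Qˣ)} := by
      refine Set.Finite.subset (Set.finite_range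
        (fun p : Fin m × Fin m => (h p.2 : Q) * ((h p.1)⁻¹ : Qˣ))) ?_
      rintro z ⟨v, _, w, rfl⟩
      exact ⟨(v, w), rfl⟩
    have hfg : (Prg Λ h σ).FG := by
      refine ⟨hfin.toFinset, ?_⟩
      rw [Set.Finite.coe_toFinset]
      rfl
    have : Algebra.FiniteType Λ (Prg Λ h σ) := (Subalgebra.fg_iff_finiteType _).1 hfg
    exact Algebra.FiniteType.isNoetherianRing Λ (Prg Λ h σ)

end

end Pool.Agent.DBX.SER
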