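import Pool.Agent.DBX.SER.Stmts

set_option autoImplicit false

/-! # MP_2c751f_ag, squad DBX, area SER: module GEN -/

namespace Pool.Agent.DBX.SER

open Pool.Agent.DBX

noncomputable section

universe u v w

namespace GEN_

theorem hm_dv_pair {Q : Type u} [CommRing Q] {m : ℕ} (h : Fin m → Qˣ) (v w : Fin m) (N : ℤ) :
    hm h (dv {v, w} w N) = h v ^ N * (h w) ^ (-N) := by
  classical
  have h1 : dv {v, w} w N = Pi.single v N + Pi.single w (-N) := by
    funext x
    unfold dv
    rw [Pi.add_apply]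
    by_cases hvw : v = w
    · subst hvw
      by_cases hx : x = v
      · subst hx
        simp
      · simp [hx]
    · have hc : ({v, w} : Finset (Fin m)).card = 2 := Finset.card_pair hvw
      rw [hc]
      by_cases hx : x = v
      · subst hx
        simp [hvw]
      · by_cases hy : x = w
        · subst hy
          rw [Pi.single_eq_of_ne hx, Pi.single_eq_same]
          simp
          ring
        · simp [hx, hy]
  rw [h1, hm_add, hm_single, hm_single]

end GEN_

open GEN_ in
theorem GEN (hd : Stmt_DEN.{u, v}) : Stmt_GEN.{u, v} := by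
  classical
  intro Λ Q 𝕄 _ _ _ _ _ _ _ m h M hM
  obtain ⟨hd1, -, -⟩ := hd
  choose G hG1 hG2 using hM.fg
  -- denominators
  have key : ∀ (v w : Fin m) (y : 𝕄), ∃ N0 : ℕ, y ∈ G v → ∀ N : ℕ, N0 ≤ N →
      (((h v) ^ (N : ℤ) * (h w) ^ (-(N : ℤ)) : Qˣ) : Q) • y ∈ M {w} := by
    intro v w y
    by_cases hy : y ∈ G v
    · have hy1 : y ∈ M {v, w} := hM.mono {v} {v, w} (Finset.singleton_nonempty v)
        (by simp) (hG1 v hy)
      obtain ⟨N0, hN0⟩ := hd1 Λ Q 𝕄 m h M hM {v, w} w (by simp) y hy1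
      refine ⟨N0, fun _ N hN => ?_⟩
      have := hN0 N hN
      rwa [hm_dv_pair] at this
    · exact ⟨0, fun hy' => absurd hy' hy⟩
  choose N0 hN0 using key
  let K0 : ℕ := ∑ v, ∑ w, ∑ y ∈ G v, N0 v w y
  have hK0 : ∀ v w y, y ∈ G v → N0 v w y ≤ K0 := by
    intro v w y hy
    calc N0 v w y ≤ ∑ y ∈ G v, N0 v w y :=
          Finset.single_le_sum (f := fun y => N0 v w y) (fun _ _ => Nat.zero_le _) hy
      _ ≤ ∑ w, ∑ y ∈ G v, N0 v w y :=
          Finset.single_le_sum (f := fun w => ∑ y ∈ G v, N0 v w y) (fun _ _ => Nat.zero_le _)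
            (Finset.mem_univ w)
      _ ≤ K0 := Finset.single_le_sum (f := fun v => ∑ w, ∑ y ∈ G v, N0 v w y)
            (fun _ _ => Nat.zero_le _) (Finset.mem_univ v)
  let I : Type _ := Σ v : Fin m, {y : 𝕄 // y ∈ G v}
  let e : Fin (Fintype.card I) ≃ I := (Fintype.equivFin I).symm
  let gI : I → 𝕄 := fun i => (((h i.1) ^ (K0 : ℤ) : Qˣ) : Q) • i.2.1
  have hgI : ∀ (i : I) (w : Fin m), (((h w) ^ (-(K0 : ℤ)) : Qˣ) : Q) • gI i =
      (((h i.1) ^ (K0 : ℤ) * (h w) ^ (-(K0 : ℤ)) : Qˣ) : Q) • i.2.1 := by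
    intro i w
    change _ • (_ • _) = _
    rw [smul_smul, ← Units.val_mul, mul_comm]
  refine ⟨K0, Fintype.card I, fun k => gI (e k), ?_, ?_⟩
  · intro a w
    rw [hgI]
    exact hN0 _ w _ (e a).2.2 K0 (hK0 _ w _ (e a).2.2)
  · intro v x hx
    have hx2 := hG2 v x hx
    rw [Submodule.mem_span_finset] at hx2
    obtain ⟨c, hc1, hc2⟩ := hx2
    refine ⟨fun k => if (e k).1 = v then (c (e k).2.1 : Q) else 0, ?_, ?_⟩
    · intro a
      dsimp only
      split_ifs
      · exact (c _).2
      · exact Subalgebra.zero_mem _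
    · rw [Equiv.sum_comp e (fun i : I => (if i.1 = v then (c i.2.1 : Q) else 0) •
        ((((h v) ^ (-(K0 : ℤ)) : Qˣ) : Q) • gI i))]
      rw [Fintype.sum_sigma]
      rw [Finset.sum_eq_single v]
      · rw [← hc2, ← Finset.sum_attach]
        simp only [if_true]
        refine Finset.sum_congr rfl (fun y _ => ?_)
        rw [hgI]
        simp only
        rw [← zpow_add, add_neg_cancel, zpow_zero, Units.val_one, one_smul]
        rfl
      · intro w _ hw
        simp [hw]
      · intro hv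
        exact absurd (Finset.mem_univ v) hv

end

end Pool.Agent.DBX.SER
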