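import Pool.Agent.DBX.SER.Stmts

set_option autoImplicit false

namespace Pool.Agent.DBX.SER

open Pool.Agent.DBX

noncomputable section

universe u v w

namespace GNN_

variable {Λ : Type v} {Q : Type u} {𝕄 : Type u} [CommRing Λ] [CommRing Q] [Algebra Λ Q]
    [AddCommGroup 𝕄] [Module Λ 𝕄] [Module Q 𝕄] [IsScalarTower Λ Q 𝕄] {m : ℕ} (h : Fin m → Qˣ)
    (M : Finset (Fin m) → Submodule Λ 𝕄) (N : ℕ → Submodule Λ 𝕄)

theorem smul_comm' (q : Q) (c : Λ) (x : 𝕄) : q • (c • x) = c • (q • x) := by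
  rw [← IsScalarTower.algebraMap_smul Q c x, ← IsScalarTower.algebraMap_smul Q c (q • x),
    smul_smul, smul_smul, mul_comm]

/-- `y ↦ ∑ h_v y_v` -/
def L : (Fin m → 𝕄) →ₗ[Λ] 𝕄 where
  toFun y := ∑ v, ((h v : Qˣ) : Q) • y v
  map_add' x y := by
    simp only [Pi.add_apply, smul_add, Finset.sum_add_distrib]
  map_smul' c y := by
    simp only [Pi.smul_apply, RingHom.id_apply, Finset.smul_sum]
    exact Finset.sum_congr rfl (fun v _ => smul_comm' _ _ _)

variable {h M N}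

theorem fgN (h0 : (N 0).FG) (hN : ∀ e, ∀ x, x ∈ N (e + 1) ↔ ∃ y : Fin m → 𝕄, (∀ v, y v ∈ N e) ∧
      x = ∑ v, ((h v : Qˣ) : Q) • y v) (e : ℕ) : (N e).FG := by
  induction e with
  | zero => exact h0
  | succ e ih =>
    have e1 : N (e + 1) = Submodule.map (L (Λ := Λ) (𝕄 := 𝕄) h) (Submodule.pi Set.univ (fun _ => N e)) := by
      ext x
      rw [hN e x, Submodule.mem_map]
      constructor
      · rintro ⟨y, hy, rfl⟩
        exact ⟨y, fun v _ => hy v, rfl⟩
      · rintro ⟨y, hy, rfl⟩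
        exact ⟨y, fun v => hy v (Set.mem_univ v), rfl⟩
    rw [e1]
    exact (Submodule.fg_pi (fun _ => ih)).map _

theorem up1 (hN : ∀ e, ∀ x, x ∈ N (e + 1) ↔ ∃ y : Fin m → 𝕄, (∀ v, y v ∈ N e) ∧
      x = ∑ v, ((h v : Qˣ) : Q) • y v) (v : Fin m) {e : ℕ} {x : 𝕄} (hx : x ∈ N e) :
    ((h v : Qˣ) : Q) • x ∈ N (e + 1) := by
  rw [hN]
  refine ⟨Pi.single v x, ?_, ?_⟩
  · intro w
    by_cases hw : w = v
    · subst hw
      rw [Pi.single_eq_same]
      exact hx
    · rw [Pi.single_eq_of_ne hw]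
      exact zero_mem _
  · rw [Finset.sum_eq_single v]
    · rw [Pi.single_eq_same]
    · intro w _ hw
      rw [Pi.single_eq_of_ne hw, smul_zero]
    · intro hv
      exact absurd (Finset.mem_univ v) hv

theorem up (hN : ∀ e, ∀ x, x ∈ N (e + 1) ↔ ∃ y : Fin m → 𝕄, (∀ v, y v ∈ N e) ∧
      x = ∑ v, ((h v : Qˣ) : Q) • y v) (v : Fin m) {e : ℕ} {x : 𝕄} (hx : x ∈ N e) (a : ℕ) :
    (((h v) ^ a : Qˣ) : Q) • x ∈ N (e + a) := by
  induction a with
  | zero => simpa using hx
  | succ a ih =>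
    have := up1 hN v ih
    rw [smul_smul, ← Units.val_mul, ← pow_succ'] at this
    exact this

theorem up' (hN : ∀ e, ∀ x, x ∈ N (e + 1) ↔ ∃ y : Fin m → 𝕄, (∀ v, y v ∈ N e) ∧
      x = ∑ v, ((h v : Qˣ) : Q) • y v) (v : Fin m) {e K : ℕ} (hK : e ≤ K) {x : 𝕄}
    (hx : (((h v) ^ e : Qˣ) : Q) • x ∈ N e) :
    (((h v) ^ K : Qˣ) : Q) • x ∈ N K := by
  have := up hN v hx (K - e)
  rw [smul_smul, ← Units.val_mul, ← pow_add] at this
  have e1 : K - e + e = K := by omega
  have e2 : e + (K - e) = K := by omega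
  rw [e1, e2] at this
  exact this

end GNN_

theorem GNN : Stmt_GNN.{u, v} := by
  intro Λ Q 𝕄 _ _ _ _ _ _ _ m h M N hC h0 hN hM
  choose G hG1 hG2 using hC.fg
  have hex : ∀ v, ∀ y : 𝕄, y ∈ G v → ∃ e : ℕ, (((h v) ^ e : Qˣ) : Q) • y ∈ N e :=
    fun v y hy => (hM v y).1 (hG1 v hy)
  classical
  choose! ee hee using hex
  let K0 : ℕ := Finset.univ.sup (fun v => (G v).sup (fun y => ee v y))
  have hK0 : ∀ v, ∀ y ∈ G v, (((h v) ^ K0 : Qˣ) : Q) • y ∈ N K0 := by
    intro v y hy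
    refine GNN_.up' hN v ?_ (hee v y hy)
    calc ee v y ≤ (G v).sup (fun y => ee v y) := Finset.le_sup (f := fun y => ee v y) hy
      _ ≤ K0 := Finset.le_sup (f := fun v => (G v).sup (fun y => ee v y)) (Finset.mem_univ v)
  obtain ⟨r, g, hg⟩ := Submodule.fg_iff_exists_fin_generating_family.1 (GNN_.fgN h0 hN K0)
  have hgN : ∀ a, g a ∈ N K0 := by
    intro a
    rw [← hg]
    exact Submodule.subset_span ⟨a, rfl⟩
  have hcancel : ∀ (v : Fin m) (x : 𝕄),
      (((h v) ^ K0 : Qˣ) : Q) • ((((h v) ^ (-(K0 : ℤ)) : Qˣ) : Q) • x) = x := by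
    intro v x
    rw [smul_smul, ← Units.val_mul, zpow_neg, zpow_natCast, mul_inv_cancel, Units.val_one, one_smul]
  have hcancel' : ∀ (v : Fin m) (x : 𝕄),
      (((h v) ^ (-(K0 : ℤ)) : Qˣ) : Q) • ((((h v) ^ K0 : Qˣ) : Q) • x) = x := by
    intro v x
    rw [smul_smul, ← Units.val_mul, zpow_neg, zpow_natCast, inv_mul_cancel, Units.val_one, one_smul]
  refine ⟨K0, r, g, ⟨?_, ?_⟩, hgN⟩
  · intro a v
    rw [hM v]
    refine ⟨K0, ?_⟩
    rw [hcancel]
    exact hgN a
  · intro v x hx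
    have hx' := hG2 v x hx
    induction hx' using Submodule.span_induction with
    | mem y hy =>
      have h1 := hK0 v y hy
      rw [← hg, Submodule.mem_span_range_iff_exists_fun] at h1
      obtain ⟨c, hc⟩ := h1
      refine ⟨fun a => algebraMap Λ Q (c a), fun a => Subalgebra.algebraMap_mem _ _, ?_⟩
      rw [← hcancel' v y, ← hc, Finset.smul_sum]
      refine Finset.sum_congr rfl ?_
      intro a _
      rw [GNN_.smul_comm', IsScalarTower.algebraMap_smul]
    | zero =>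
      exact ⟨0, fun a => zero_mem _, by simp⟩
    | add y z hy hz h1 h2 =>
      have hmem : ∀ y ∈ Submodule.span (Prg Λ h {v}) (G v : Set 𝕄), y ∈ M {v} := by
        intro y hy
        induction hy using Submodule.span_induction with
        | mem y hy => exact hG1 v hy
        | zero => exact zero_mem _
        | add y z _ _ h1 h2 => exact add_mem h1 h2
        | smul a y _ h1 => exact hC.smul {v} ⟨v, Finset.mem_singleton_self v⟩ a.1 a.2 y h1
      obtain ⟨c, hc, e1⟩ := h1 (hmem y hy)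
      obtain ⟨c', hc', e2⟩ := h2 (hmem z hz)
      refine ⟨c + c', fun a => add_mem (hc a) (hc' a), ?_⟩
      rw [e1, e2, ← Finset.sum_add_distrib]
      refine Finset.sum_congr rfl ?_
      intro a _
      rw [Pi.add_apply, add_smul]
    | smul a y hy h1 =>
      have hmem : ∀ y ∈ Submodule.span (Prg Λ h {v}) (G v : Set 𝕄), y ∈ M {v} := by
        intro y hy
        induction hy using Submodule.span_induction with
        | mem y hy => exact hG1 v hy
        | zero => exact zero_mem _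
        | add y z _ _ h1 h2 => exact add_mem h1 h2
        | smul a y _ h1 => exact hC.smul {v} ⟨v, Finset.mem_singleton_self v⟩ a.1 a.2 y h1
      obtain ⟨c, hc, e1⟩ := h1 (hmem y hy)
      refine ⟨fun b => a.1 * c b, fun b => mul_mem a.2 (hc b), ?_⟩
      have e2 : a • y = (a : Q) • y := rfl
      rw [e2, e1, Finset.smul_sum]
      refine Finset.sum_congr rfl ?_
      intro b _
      rw [smul_smul, smul_smul]

end

end Pool.Agent.DBX.SER
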