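import Pool.Agent.DBX.SER.Stmts

set_option autoImplicit false

namespace Pool.Agent.DBX.SER

open Pool.Agent.DBX

noncomputable section

universe u v w

theorem KER_Yu {Λ : Type v} [CommRing Λ] {m : ℕ} (v : Fin m) (n : ℤ) :
    Yu Λ m v ^ n = mo Λ (Pi.single v n) := by
  rw [← hm_single, hm_Yu]

theorem KER_smulOX {Λ : Type v} [CommRing Λ] {m r : ℕ} {d e : ℤ} {σ : Finset (Fin m)}
    {a : LP Λ m} (ha : a ∈ OO Λ m d σ) {x : Fin r → LP Λ m} (hx : x ∈ OX Λ m r e σ) :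
    a • x ∈ OX Λ m r (d + e) σ := by
  rw [mem_OX] at hx ⊢
  intro i
  rw [Pi.smul_apply, smul_eq_mul]
  exact OO_mul ha (hx i)

theorem KER_inv {Λ : Type v} [CommRing Λ] {m r : ℕ} (α : Fin m → ℤ) (x : Fin r → LP Λ m) :
    (mo Λ (-α) : LP Λ m) • ((mo Λ α : LP Λ m) • x) = x := by
  rw [smul_smul, ← Units.val_mul, ← mo_add, neg_add_cancel, mo_zero, Units.val_one, one_smul]

section

variable {Λ : Type v} {Q 𝕄 : Type u} [CommRing Λ] [CommRing Q] [Algebra Λ Q]
    [AddCommGroup 𝕄] [Module Λ 𝕄] [Module Q 𝕄] [IsScalarTower Λ Q 𝕄]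
    {m r : ℕ} (h : Fin m → Qˣ) (K0 : ℤ) (g : Fin r → 𝕄)

theorem KER_mem {σ : Finset (Fin m)} {x : Fin r → LP Λ m} :
    x ∈ Ker (Λ := Λ) h K0 g σ ↔ x ∈ OX Λ m r (-K0) σ ∧ pr Λ h g x = 0 := by
  unfold Ker
  rw [Submodule.mem_inf, LinearMap.mem_ker]

theorem KER_smul {σ : Finset (Fin m)} {a : LP Λ m}
    (ha : a ∈ OO Λ m 0 σ) {x : Fin r → LP Λ m} (hx : x ∈ Ker (Λ := Λ) h K0 g σ) :
    a • x ∈ Ker (Λ := Λ) h K0 g σ := by
  rw [KER_mem] at hx ⊢
  refine ⟨?_, ?_⟩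
  · have := KER_smulOX ha hx.1
    rwa [zero_add] at this
  · rw [pr_smul, hx.2, smul_zero]

theorem KER_tw {e : ℤ} {σ : Finset (Fin m)} {v : Fin m} (hv : v ∈ σ) {x : Fin r → LP Λ m} :
    (((Yu Λ m v) ^ (-e) : (LP Λ m)ˣ) : LP Λ m) • x ∈ Ker (Λ := Λ) h K0 g σ ↔
      x ∈ OX Λ m r (e - K0) σ ∧ pr Λ h g x = 0 := by
  rw [KER_mem, KER_Yu, pr_smul, ev_mo]
  have e1 : ((hm h (Pi.single v (-e)) : Qˣ) : Q) • pr Λ h g x = 0 ↔ pr Λ h g x = 0 := by
    constructor
    · intro h1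
      have h2 : (((hm h (Pi.single v (-e)))⁻¹ : Qˣ) : Q) •
          (((hm h (Pi.single v (-e)) : Qˣ) : Q) • pr Λ h g x) = 0 := by
        rw [h1, smul_zero]
      rwa [smul_smul, ← Units.val_mul, inv_mul_cancel, Units.val_one, one_smul] at h2
    · intro h1
      rw [h1, smul_zero]
  rw [e1]
  refine and_congr_left (fun _ => ?_)
  constructor
  · intro h1
    have h2 := KER_smulOX (mo_mem (Λ := Λ) (Adm_single hv e)) h1
    have h3 : (Pi.single v e : Fin m → ℤ) = -(Pi.single v (-e)) := by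
      rw [Pi.single_neg, neg_neg]
    rw [h3, KER_inv] at h2
    rwa [sub_eq_add_neg]
  · intro h1
    have h2 := KER_smulOX (mo_mem (Λ := Λ) (Adm_single hv (-e))) h1
    rwa [show -e + (e - K0) = -K0 by ring] at h2

end

theorem KER (hd : Stmt_DEN.{v, v}) : Stmt_KER.{u, v} := by
  classical
  intro Λ Q 𝕄 _ _ _ _ _ _ _ _ m r h K0 g
  refine ⟨⟨?_, ?_, ?_, ?_⟩, ?_⟩
  · intro σ hσ a ha x hx
    exact KER_smul h K0 g ((mem_Prg_Yu hσ).mp ha) hx
  · intro σ τ _ hστ x hx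
    rw [KER_mem] at hx ⊢
    exact ⟨OX_mono _ hστ hx.1, hx.2⟩
  · intro σ τ hσ hστ x hx
    obtain ⟨v, hv⟩ := hσ
    obtain ⟨N0, hN0⟩ := hd.2.1 Λ m r (-K0) τ v x ((KER_mem h K0 g).mp hx).1
    have h1 := hN0 N0 le_rfl
    have hy : (mo Λ (dv τ v N0) : LP Λ m) • x ∈ Ker (Λ := Λ) h K0 g σ := by
      rw [KER_mem]
      refine ⟨OX_mono _ (Finset.singleton_subset_iff.mpr hv) h1, ?_⟩
      rw [pr_smul, ((KER_mem h K0 g).mp hx).2, smul_zero]
    have hτ : τ.Nonempty := ⟨v, hστ hv⟩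
    have h2 : (mo Λ (-(dv τ v N0)) : LP Λ m) ∈ Prg Λ (Yu Λ m) τ := by
      rw [mem_Prg_Yu hτ, ← dv_neg]
      exact mo_mem (dv_Adm (hστ hv) _)
    have h3 := KER_inv (dv τ v N0) x
    rw [← h3]
    exact Submodule.smul_mem (Submodule.span (Prg Λ (Yu Λ m) τ) _) ⟨_, h2⟩
      (Submodule.subset_span hy)
  · intro v
    have hnoe : IsNoetherianRing (Prg Λ (Yu Λ m) {v}) := hd.2.2 Λ (LP Λ m) m (Yu Λ m) {v}
    have hv0 : ({v} : Finset (Fin m)).Nonempty := Finset.singleton_nonempty v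
    let K' : Submodule (Prg Λ (Yu Λ m) {v}) (Fin r → LP Λ m) :=
      { carrier := {x | x ∈ Ker (Λ := Λ) h K0 g {v}}
        zero_mem' := (Ker (Λ := Λ) h K0 g {v}).zero_mem
        add_mem' := fun hx hy => (Ker (Λ := Λ) h K0 g {v}).add_mem hx hy
        smul_mem' := fun c x hx => KER_smul h K0 g ((mem_Prg_Yu hv0).mp c.2) hx }
    let b : Fin r → (Fin r → LP Λ m) := fun a => Pi.single a (mo Λ (Pi.single v (-K0)) : LP Λ m)
    have hle : K' ≤ Submodule.span (Prg Λ (Yu Λ m) {v}) (Set.range b) := by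
      intro x hx
      have hx1 := (mem_OX.mp ((KER_mem h K0 g).mp hx).1)
      have hc : ∀ a, (mo Λ (Pi.single v K0) : LP Λ m) * x a ∈ Prg Λ (Yu Λ m) {v} := by
        intro a
        rw [mem_Prg_Yu hv0]
        have := mo_mul_mem (Adm_single (Finset.mem_singleton_self v) K0) (hx1 a)
        rwa [add_neg_cancel] at this
      have hxs : x = ∑ a, (⟨_, hc a⟩ : Prg Λ (Yu Λ m) {v}) • b a := by
        funext i
        rw [Finset.sum_apply, Finset.sum_eq_single i]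
        · change x i = ((mo Λ (Pi.single v K0) : LP Λ m) * x i) • b i i
          simp only [b, Pi.single_eq_same, smul_eq_mul]
          have h5 : (mo Λ (Pi.single v K0) : LP Λ m) * (mo Λ (Pi.single v (-K0)) : LP Λ m) = 1 := by
            rw [← Units.val_mul, ← mo_add, ← Pi.single_add, add_neg_cancel, Pi.single_zero,
              mo_zero, Units.val_one]
          calc x i = ((mo Λ (Pi.single v K0) : LP Λ m) * (mo Λ (Pi.single v (-K0)) : LP Λ m))
                * x i := by rw [h5, one_mul]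
            _ = _ := by ring
        · intro a _ ha
          change ((mo Λ (Pi.single v K0) : LP Λ m) * x a) • b a i = 0
          simp only [b, Pi.single_eq_of_ne (Ne.symm ha), smul_zero]
        · intro h6
          exact absurd (Finset.mem_univ i) h6
      rw [hxs]
      exact Submodule.sum_mem _ (fun a _ => Submodule.smul_mem _ _
        (Submodule.subset_span ⟨a, rfl⟩))
    have hN : IsNoetherian (Prg Λ (Yu Λ m) {v})
        (Submodule.span (Prg Λ (Yu Λ m) {v}) (Set.range b)) :=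
      isNoetherian_span_of_finite _ (Set.finite_range b)
    obtain ⟨G, hG⟩ := isNoetherian_submodule.mp hN K' hle
    refine ⟨G, ?_, ?_⟩
    · intro x hx
      have h7 : x ∈ K' := by rw [← hG]; exact Submodule.subset_span hx
      exact h7
    · intro x hx
      have h7 : x ∈ K' := hx
      rwa [← hG] at h7
  · intro e σ hσ x
    rw [mem_twS]
    constructor
    · intro h1
      obtain ⟨v, hv⟩ := hσ
      exact (KER_tw h K0 g hv).mp (h1 v hv)
    · intro h1 v hv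
      exact (KER_tw h K0 g hv).mpr h1

end

end Pool.Agent.DBX.SER
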