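import Pool.Agent.DBX.SER.Stmts

set_option autoImplicit false

namespace Pool.Agent.DBX.SER

open Pool.Agent.DBX

noncomputable section

universe u v w

theorem LEF_cdS {Λ : Type v} {𝔸 : Type u} [CommRing Λ] [AddCommGroup 𝔸] [Module Λ 𝔸] {m : ℕ}
    {S : Finset (Fin m) → Submodule Λ 𝔸} (hS : Mono S) {y : Finset (Fin m) → 𝔸}
    (hy : InC (cs S) y) {σ : Finset (Fin m)} (hσ : σ.Nonempty) : cd y σ ∈ S σ := by
  rw [cd_apply]
  refine Submodule.sum_mem _ (fun v hv => ?_)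
  have h1 : y (σ.erase v) ∈ S σ := by
    by_cases h : (σ.erase v).Nonempty
    · exact hS _ _ h (Finset.erase_subset v σ) (hy.2 _ h)
    · rw [Finset.not_nonempty_iff_eq_empty] at h
      rw [h, hy.1]
      exact Submodule.zero_mem _
  exact zsmul_mem h1 _

theorem LEF : Stmt_LEF.{u, v, w} := by
  classical
  intro Λ 𝔸 𝔹 _ _ _ _ _ _ m S K T f hS hK hT j hFK hFS
  obtain ⟨GK, hGK1, hGK2⟩ := hFK
  obtain ⟨GS, hGS1, hGS2⟩ := hFS
  let F := Finset (Fin m) → 𝔸
  let Φ : F →ₗ[Λ] (Finset (Fin m) → 𝔹) := f.compLeft (Finset (Fin m))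
  have hΦ : ∀ x σ, Φ x σ = f (x σ) := fun x σ => rfl
  have hΦcd : ∀ x, cd (Φ x) = Φ (cd x) := by
    intro x
    exact cd_map f.toAddMonoidHom x
  let L := cdL Λ (Fin m) 𝔸
  have hL : ∀ x, L x = cd x := fun x => rfl
  let E : Submodule Λ F :=
    { carrier := {y | InCj (cs S) j y ∧ Φ (cd y) = 0}
      zero_mem' := ⟨⟨⟨rfl, fun σ _ => Submodule.zero_mem _⟩, fun σ _ => rfl⟩, by
        rw [cd_zero, map_zero]⟩
      add_mem' := by
        rintro x y ⟨hx, hx'⟩ ⟨hy, hy'⟩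
        refine ⟨⟨⟨?_, fun σ hσ => ?_⟩, fun σ hσ => ?_⟩, ?_⟩
        · rw [Pi.add_apply, hx.1.1, hy.1.1, add_zero]
        · exact Submodule.add_mem _ (hx.1.2 σ hσ) (hy.1.2 σ hσ)
        · rw [Pi.add_apply, hx.2 σ hσ, hy.2 σ hσ, add_zero]
        · rw [cd_add, map_add, hx', hy', add_zero]
      smul_mem' := by
        rintro c x ⟨hx, hx'⟩
        refine ⟨⟨⟨?_, fun σ hσ => ?_⟩, fun σ hσ => ?_⟩, ?_⟩
        · rw [Pi.smul_apply, hx.1.1, smul_zero]
        · exact Submodule.smul_mem _ _ (hx.1.2 σ hσ)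
        · rw [Pi.smul_apply, hx.2 σ hσ, smul_zero]
        · rw [cd_smul, map_smul, hx', smul_zero] }
  let CK : Submodule Λ F :=
    { carrier := {y | InC (cs K) y}
      zero_mem' := ⟨rfl, fun σ _ => Submodule.zero_mem _⟩
      add_mem' := by
        rintro x y hx hy
        refine ⟨?_, fun σ hσ => ?_⟩
        · rw [Pi.add_apply, hx.1, hy.1, add_zero]
        · exact Submodule.add_mem _ (hx.2 σ hσ) (hy.2 σ hσ)
      smul_mem' := by
        rintro c x hx
        refine ⟨?_, fun σ hσ => ?_⟩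
        · rw [Pi.smul_apply, hx.1, smul_zero]
        · exact Submodule.smul_mem _ _ (hx.2 σ hσ) }
  let E' : Submodule Λ F := Submodule.span Λ (GK : Set F) ⊓ (E.map L ⊔ CK.map L)
  have hE'fg : E'.FG := by
    have h1 : IsNoetherian Λ (Submodule.span Λ (GK : Set F)) :=
      isNoetherian_span_of_finite Λ GK.finite_toSet
    exact isNoetherian_submodule.mp h1 E' inf_le_left
  obtain ⟨X, hX⟩ := hE'fg
  have hXy : ∀ x : F, ∃ y ∈ E, x ∈ X → ∃ κ ∈ CK, cd y + cd κ = x := by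
    intro x
    by_cases hx : x ∈ X
    · have h1 : x ∈ E' := by rw [← hX]; exact Submodule.subset_span hx
      have h2 := h1.2
      obtain ⟨a, ⟨y, hy, rfl⟩, b, ⟨κ, hκ, rfl⟩, hab⟩ := Submodule.mem_sup.mp h2
      exact ⟨y, hy, fun _ => ⟨κ, hκ, hab⟩⟩
    · exact ⟨0, Submodule.zero_mem _, fun h => absurd h hx⟩
  choose yx hyxE hyx using hXy
  let Y0 : Submodule Λ F := Submodule.span Λ (yx '' (X : Set F))
  have hY0E : Y0 ≤ E := by
    refine Submodule.span_le.mpr ?_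
    rintro _ ⟨x, _, rfl⟩
    exact hyxE x
  have hmain : ∀ y ∈ E, ∃ a ∈ Y0, ∃ κ ∈ CK, cd y = cd a + cd κ := by
    intro y hy
    have h1 : InCj (cs K) (j + 1) (cd y) := by
      refine ⟨⟨cd_empty y, fun σ hσ => ?_⟩, fun σ hσ => cd_card hy.1.2 hσ⟩
      refine (hK σ hσ (cd y σ)).mpr ⟨LEF_cdS hS hy.1.1 hσ, ?_⟩
      exact congrFun hy.2 σ
    obtain ⟨κ, hκ, hκ2⟩ := hGK2 (cd y) h1 (cd_cd y)
    have h2 : cd y - cd κ ∈ E' := by
      refine ⟨hκ2, ?_⟩
      have h3 : cd y - cd κ = L y + L (-κ) := by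
        rw [map_neg, hL, hL, sub_eq_add_neg]
      rw [h3]
      exact Submodule.add_mem _ (Submodule.mem_sup_left (Submodule.mem_map_of_mem hy))
        (Submodule.mem_sup_right (Submodule.mem_map_of_mem (Submodule.neg_mem _ hκ)))
    have h4 : E' ≤ Y0.map L ⊔ CK.map L := by
      rw [← hX]
      refine Submodule.span_le.mpr ?_
      intro x hx
      obtain ⟨κ', hκ', hκ''⟩ := hyx x hx
      rw [← hκ'']
      exact Submodule.add_mem _
        (Submodule.mem_sup_left (Submodule.mem_map_of_mem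
          (Submodule.subset_span (Set.mem_image_of_mem yx hx))))
        (Submodule.mem_sup_right (Submodule.mem_map_of_mem hκ'))
    obtain ⟨a', ⟨a, ha, rfl⟩, b', ⟨κ', hκ', rfl⟩, hab⟩ := Submodule.mem_sup.mp (h4 h2)
    refine ⟨a, ha, κ' + κ, Submodule.add_mem _ hκ' hκ, ?_⟩
    rw [hL, hL] at hab
    rw [cd_add, ← add_assoc, hab, sub_add_cancel]
  refine ⟨(X.image (fun x => Φ (yx x))) ∪ (GS.image Φ), ?_, ?_⟩
  · intro x hx
    rw [Finset.mem_union, Finset.mem_image, Finset.mem_image] at hx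
    rcases hx with ⟨x', _, rfl⟩ | ⟨g, hg, rfl⟩
    · have h1 := hyxE x'
      refine ⟨⟨?_, fun σ hσ => ?_⟩, ?_⟩
      · rw [hΦ, h1.1.1.1, map_zero]
      · exact (hT σ hσ _).mpr ⟨_, h1.1.1.2 σ hσ, rfl⟩
      · rw [hΦcd]; exact h1.2
    · obtain ⟨h1, h2⟩ := hGS1 g hg
      refine ⟨⟨?_, fun σ hσ => ?_⟩, ?_⟩
      · rw [hΦ, h1.1, map_zero]
      · exact (hT σ hσ _).mpr ⟨_, h1.2 σ hσ, rfl⟩
      · rw [hΦcd, h2, map_zero]
  · intro z hz hcz
    have hlift : ∀ σ : Finset (Fin m), ∃ a : 𝔸, (σ.Nonempty → a ∈ S σ) ∧ (σ.card ≠ j → a = 0) ∧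
        (σ = ∅ → a = 0) ∧ f a = z σ := by
      intro σ
      by_cases h0 : σ.Nonempty
      · by_cases hj : σ.card = j
        · obtain ⟨a, ha, haz⟩ := (hT σ h0 (z σ)).mp (hz.1.2 σ h0)
          refine ⟨a, fun _ => ha, fun h => absurd hj h, fun h => ?_, haz⟩
          rw [h] at h0
          exact absurd h0 Finset.not_nonempty_empty
        · exact ⟨0, fun _ => Submodule.zero_mem _, fun _ => rfl, fun _ => rfl, by
            rw [map_zero, hz.2 σ hj]⟩
      · rw [Finset.not_nonempty_iff_eq_empty] at h0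
        subst h0
        exact ⟨0, fun _ => Submodule.zero_mem _, fun _ => rfl, fun _ => rfl, by
            rw [map_zero, hz.1.1]⟩
    choose y hy1 hy2 hy3 hy4 using hlift
    have hΦy : Φ y = z := funext hy4
    have hyE : y ∈ E := by
      refine ⟨⟨⟨hy3 ∅ rfl, hy1⟩, hy2⟩, ?_⟩
      rw [← hΦcd, hΦy, hcz]
    obtain ⟨a, ha, κ, hκ, hcd⟩ := hmain y hyE
    have haE := hY0E ha
    have hu1 : y - a - cpt j κ = cpt j (y - a - κ) := by
      funext σ
      by_cases h : σ.card = j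
      · rw [cpt_of_eq _ h, Pi.sub_apply, Pi.sub_apply, cpt_of_eq _ h, Pi.sub_apply, Pi.sub_apply]
      · rw [cpt_of_ne _ h, Pi.sub_apply, Pi.sub_apply, cpt_of_ne _ h, hyE.1.2 σ h, haE.1.2 σ h]
        simp
    have hu2 : cd (y - a - cpt j κ) = 0 := by
      rw [hu1]
      refine cd_cpt_zero ?_ j
      rw [cd_sub, cd_sub, hcd]
      abel
    have hκS : ∀ σ : Finset (Fin m), σ.Nonempty → cpt j κ σ ∈ K σ := by
      intro σ hσ
      by_cases h : σ.card = j
      · rw [cpt_of_eq _ h]; exact hκ.2 σ hσ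
      · rw [cpt_of_ne _ h]; exact Submodule.zero_mem _
    have hκ0 : cpt j κ ∅ = 0 := by
      unfold cpt
      split_ifs
      · exact hκ.1
      · rfl
    have hu3 : InCj (cs S) j (y - a - cpt j κ) := by
      refine ⟨⟨?_, fun σ hσ => ?_⟩, fun σ hσ => ?_⟩
      · rw [Pi.sub_apply, Pi.sub_apply, hyE.1.1.1, haE.1.1.1, hκ0]; simp
      · exact Submodule.sub_mem _ (Submodule.sub_mem _ (hyE.1.1.2 σ hσ) (haE.1.1.2 σ hσ))
          ((hK σ hσ _).mp (hκS σ hσ)).1
      · rw [hu1, cpt_of_ne _ hσ]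
    obtain ⟨b, hb1, hb2⟩ := hGS2 _ hu3 hu2
    refine ⟨Φ b, ⟨?_, fun σ hσ => ?_⟩, ?_⟩
    · rw [hΦ, hb1.1, map_zero]
    · exact (hT σ hσ _).mpr ⟨_, hb1.2 σ hσ, rfl⟩
    · have hΦκ : Φ (cpt j κ) = 0 := by
        funext σ
        rw [hΦ]
        by_cases hσ : σ.Nonempty
        · exact ((hK σ hσ _).mp (hκS σ hσ)).2
        · rw [Finset.not_nonempty_iff_eq_empty] at hσ
          rw [hσ, hκ0, map_zero]; rfl
      have e1 : z - cd (Φ b) = Φ a + Φ (y - a - cpt j κ - cd b) := by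
        rw [← hΦy, hΦcd, map_sub, map_sub, map_sub, hΦκ]
        abel
      rw [e1]
      refine Submodule.add_mem _ ?_ ?_
      · have h1 : Φ a ∈ Y0.map Φ := Submodule.mem_map_of_mem ha
        rw [Submodule.map_span] at h1
        refine Submodule.span_mono ?_ h1
        rintro _ ⟨_, ⟨x, hx, rfl⟩, rfl⟩
        simp only [Finset.coe_union, Finset.coe_image, Set.mem_union, Set.mem_image]
        exact Or.inl ⟨x, hx, rfl⟩
      · have h1 : Φ (y - a - cpt j κ - cd b) ∈ (Submodule.span Λ (GS : Set F)).map Φ :=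
          Submodule.mem_map_of_mem hb2
        rw [Submodule.map_span] at h1
        refine Submodule.span_mono ?_ h1
        rintro _ ⟨g, hg, rfl⟩
        simp only [Finset.coe_union, Finset.coe_image, Set.mem_union, Set.mem_image]
        exact Or.inr ⟨g, hg, rfl⟩

end

end Pool.Agent.DBX.SER
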