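import Pool.Agent.DBX.SER.Stmts

set_option autoImplicit false

/-! # MP_2c751f_ag, squad DBX, area SER, module LES -/

namespace Pool.Agent.DBX.SER

open Pool.Agent.DBX

noncomputable section

universe u v w

theorem LES : Stmt_LES.{u, v, w} := by
  classical
  intro Λ 𝔸 𝔹 _ _ _ _ _ m S K T f hS hK hT j hV z hz hcz
  obtain ⟨⟨hz0, hzT⟩, hzj⟩ := hz
  have hex : ∀ σ : Finset (Fin m), ∃ x : 𝔸, (σ.Nonempty → x ∈ S σ) ∧ f x = z σ ∧
      ((σ = ∅ ∨ σ.card ≠ j) → x = 0) := by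
    intro σ
    by_cases h1 : σ = ∅ ∨ σ.card ≠ j
    · refine ⟨0, fun _ => (S σ).zero_mem, ?_, fun _ => rfl⟩
      rw [map_zero]
      rcases h1 with h1 | h1
      · rw [h1, hz0]
      · rw [hzj σ h1]
    · have h2 : σ.Nonempty := by
        rw [Finset.nonempty_iff_ne_empty]
        exact fun h => h1 (Or.inl h)
      obtain ⟨x, hx1, hx2⟩ := (hT σ h2 (z σ)).1 (hzT σ h2)
      exact ⟨x, fun _ => hx1, hx2, fun h => absurd h h1⟩
  choose y0 hy1 hy2 hy3 using hex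
  have hy0 : y0 ∅ = 0 := hy3 ∅ (Or.inl rfl)
  have hyj : ∀ σ : Finset (Fin m), σ.card ≠ j → y0 σ = 0 := fun σ h => hy3 σ (Or.inr h)
  have hcdS : ∀ σ : Finset (Fin m), σ.Nonempty → cd y0 σ ∈ S σ := by
    intro σ hσ
    rw [cd_sg]
    refine Submodule.sum_mem _ (fun v hv => ?_)
    refine Submodule.smul_of_tower_mem _ _ ?_
    rcases Finset.eq_empty_or_nonempty (σ.erase v) with h | h
    · rw [h, hy0]; exact (S σ).zero_mem
    · exact hS _ _ h (Finset.erase_subset v σ) (hy1 _ h)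
  have hfy : (fun σ => f.toAddMonoidHom (y0 σ)) = z := funext hy2
  have hcdf : ∀ σ : Finset (Fin m), f (cd y0 σ) = 0 := by
    intro σ
    have h1 := cd_map f.toAddMonoidHom y0
    rw [hfy, hcz] at h1
    exact (congrFun h1 σ).symm
  have hcdj : ∀ σ : Finset (Fin m), σ.card ≠ j + 1 → cd y0 σ = 0 := fun σ h => cd_card hyj h
  obtain ⟨κ, ⟨hκ0, hκ⟩, hcκ⟩ := hV (cd y0)
    ⟨⟨cd_empty y0, fun σ hσ => (hK σ hσ _).2 ⟨hcdS σ hσ, hcdf σ⟩⟩, hcdj⟩ (cd_cd y0)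
  have hκ' : ∀ σ : Finset (Fin m), σ.Nonempty → κ σ ∈ S σ ∧ f (κ σ) = 0 :=
    fun σ hσ => (hK σ hσ _).1 (hκ σ hσ)
  refine ⟨y0 - cpt j κ, ⟨⟨?_, ?_⟩, ?_⟩, ?_, ?_⟩
  · rw [Pi.sub_apply, hy0]
    unfold cpt
    split_ifs
    · rw [hκ0, sub_zero]
    · rw [sub_zero]
  · intro σ hσ
    rw [Pi.sub_apply]
    refine (S σ).sub_mem (hy1 σ hσ) ?_
    unfold cpt
    split_ifs
    · exact (hκ' σ hσ).1
    · exact (S σ).zero_mem
  · intro σ hσ
    rw [Pi.sub_apply, hyj σ hσ, cpt_of_ne _ hσ, sub_zero]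
  · rw [cd_sub, cd_cpt, hcκ, cpt_self hcdj, sub_self]
  · intro σ
    rw [Pi.sub_apply, map_sub, hy2, sub_eq_self]
    unfold cpt
    split_ifs
    · rcases Finset.eq_empty_or_nonempty σ with h | h
      · rw [h, hκ0, map_zero]
      · exact (hκ' σ h).2
    · exact map_zero f

end

end Pool.Agent.DBX.SER
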