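import Pool.Agent.DBX.SER.Stmts

set_option autoImplicit false

/-! # MP_2c751f_ag, squad DBX, area SER, module OXF: the cohomology of `O(e)^r` is finitely
generated -/

namespace Pool.Agent.DBX.SER

open Pool.Agent.DBX

noncomputable section

universe v

namespace OXF_

variable {Λ : Type v} [CommRing Λ] {m r : ℕ}

open Classical in
/-- keep only the coefficients with exponents in `P` -/
def flt (Λ : Type v) [CommRing Λ] (m r : ℕ) (P : (Fin m → ℤ) → Prop) :
    (Fin r → LP Λ m) →ₗ[Λ] (Fin r → LP Λ m) where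
  toFun y a := AddMonoidAlgebra.ofCoeff ((y a).coeff.filter P)
  map_add' x y := by
    funext a
    apply AddMonoidAlgebra.ext
    rw [Pi.add_apply, Pi.add_apply, AddMonoidAlgebra.coeff_ofCoeff, AddMonoidAlgebra.coeff_add,
      Finsupp.filter_add]
    rfl
  map_smul' c x := by
    funext a
    apply AddMonoidAlgebra.ext
    rw [Pi.smul_apply, AddMonoidAlgebra.coeff_ofCoeff, AddMonoidAlgebra.coeff_smul,
      Finsupp.filter_smul]
    rfl

open Classical in
theorem coeff_flt (P : (Fin m → ℤ) → Prop) (y : Fin r → LP Λ m) (a : Fin r) (α : Fin m → ℤ) :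
    (flt Λ m r P y a).coeff α = if P α then (y a).coeff α else 0 := by
  change ((y a).coeff.filter P) α = _
  rw [Finsupp.filter_apply]

/-- exponents of degree `e`, all nonnegative or all negative -/
def Bad (m : ℕ) (e : ℤ) : Set (Fin m → ℤ) :=
  {α | ∑ w, α w = e ∧ ((∀ w, 0 ≤ α w) ∨ ∀ w, α w < 0)}

theorem Bad_finite (m : ℕ) (e : ℤ) : (Bad m e).Finite := by
  refine (Set.finite_Icc (fun _ : Fin m => -|e|) (fun _ : Fin m => |e|)).subset ?_
  rintro α ⟨h1, h2 | h2⟩
  · have h3 : ∀ w, α w ≤ e := fun w => by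
      rw [← h1]
      exact Finset.single_le_sum (fun i _ => h2 i) (Finset.mem_univ w)
    constructor
    · intro w
      have := h2 w
      have := abs_nonneg e
      change -|e| ≤ α w
      omega
    · intro w
      exact (h3 w).trans (le_abs_self e)
  · have h3 : ∀ w, e ≤ α w := fun w => by
      have h4 := Finset.single_le_sum (f := fun i => - α i) (fun i _ => by have := h2 i; omega)
        (Finset.mem_univ w)
      rw [Finset.sum_neg_distrib, h1] at h4
      omega
    constructor
    · intro w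
      exact (neg_abs_le e).trans (h3 w)
    · intro w
      have := h2 w
      have := abs_nonneg e
      change α w ≤ |e|
      omega

/-- `u` is the smallest index with `0 ≤ α u` -/
def Fst (e : ℤ) (u : Fin m) (α : Fin m → ℤ) : Prop :=
  α ∉ Bad m e ∧ 0 ≤ α u ∧ ∀ w, w < u → α w < 0

theorem Fst_unique {e : ℤ} {u u' : Fin m} {α : Fin m → ℤ} (h : Fst e u α) (h' : Fst e u' α) :
    u = u' := by
  rcases lt_trichotomy u u' with h1 | h1 | h1
  · have := h'.2.2 u h1
    have := h.2.1
    omega
  · exact h1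
  · have := h.2.2 u' h1
    have := h'.2.1
    omega

theorem exists_Fst {e : ℤ} {α : Fin m → ℤ} (h1 : ∑ w, α w = e) (h2 : α ∉ Bad m e) :
    ∃ u, Fst e u α := by
  classical
  have h3 : ∃ u, 0 ≤ α u := by
    by_contra h
    push Not at h
    exact h2 ⟨h1, Or.inr h⟩
  have h4 : (Finset.univ.filter (fun u => 0 ≤ α u)).Nonempty := by
    obtain ⟨u, hu⟩ := h3
    exact ⟨u, by simp [hu]⟩
  refine ⟨(Finset.univ.filter (fun u => 0 ≤ α u)).min' h4, h2, ?_, ?_⟩
  · have := Finset.min'_mem _ h4
    exact (Finset.mem_filter.1 this).2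
  · intro w hw
    by_contra h
    push Not at h
    have := Finset.min'_le (Finset.univ.filter (fun u => 0 ≤ α u)) w (by simp [h])
    exact absurd hw (not_lt.2 this)

/-- the decomposition -/
theorem decomp (e : ℤ) (y : Fin r → LP Λ m) (h : ∀ a α, (y a).coeff α ≠ 0 → ∑ w, α w = e) :
    y = flt Λ m r (· ∈ Bad m e) y + ∑ u, flt Λ m r (Fst e u) y := by
  classical
  funext a
  apply AddMonoidAlgebra.ext
  ext α
  have e1 : ((flt Λ m r (· ∈ Bad m e) y + ∑ u, flt Λ m r (Fst e u) y) a).coeff α =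
      (flt Λ m r (· ∈ Bad m e) y a).coeff α + ∑ u, (flt Λ m r (Fst e u) y a).coeff α := by
    rw [Pi.add_apply, AddMonoidAlgebra.coeff_add, Finsupp.add_apply, Finset.sum_apply,
      AddMonoidAlgebra.coeff_sum, Finsupp.finsetSum_apply]
  rw [e1]
  simp only [coeff_flt]
  by_cases h0 : (y a).coeff α = 0
  · simp [h0]
  · by_cases hb : α ∈ Bad m e
    · rw [if_pos hb, Finset.sum_eq_zero, add_zero]
      intro u _
      rw [if_neg (fun h1 => h1.1 hb)]
    · obtain ⟨u, hu⟩ := exists_Fst (h a α h0) hb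
      rw [if_neg hb, zero_add, Finset.sum_eq_single u, if_pos hu]
      · intro u' _ hu'
        rw [if_neg (fun h1 => hu' (Fst_unique h1 hu))]
      · intro h1
        exact absurd (Finset.mem_univ u) h1

/-- coefficients with exponents in a set -/
def cof (Λ : Type v) [CommRing Λ] (m r : ℕ) (B : Set (Fin m → ℤ)) :
    (Finset (Fin m) → Fin r → LP Λ m) →ₗ[Λ] (Finset (Fin m) → Fin r → B → Λ) where
  toFun x σ a α := (x σ a).coeff α
  map_add' _ _ := rfl
  map_smul' _ _ := rfl

/-- cochains with coefficients in a set -/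
def Sup (Λ : Type v) [CommRing Λ] (m r : ℕ) (B : Set (Fin m → ℤ)) :
    Submodule Λ (Finset (Fin m) → Fin r → LP Λ m) where
  carrier := {x | ∀ σ a α, α ∉ B → (x σ a).coeff α = 0}
  zero_mem' := fun _ _ _ _ => rfl
  add_mem' := by
    intro x y hx hy σ a α h
    rw [Pi.add_apply, Pi.add_apply, AddMonoidAlgebra.coeff_add, Finsupp.add_apply, hx σ a α h,
      hy σ a α h, add_zero]
  smul_mem' := by
    intro c x hx σ a α h
    rw [Pi.smul_apply, Pi.smul_apply, AddMonoidAlgebra.coeff_smul, Finsupp.smul_apply,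
      hx σ a α h, smul_zero]

theorem noeth [IsNoetherianRing Λ] (B : Set (Fin m → ℤ)) (hB : B.Finite) :
    IsNoetherian Λ (Sup Λ m r B) := by
  have : Finite B := hB
  refine isNoetherian_of_injective ((cof Λ m r B).comp (Sup Λ m r B).subtype) ?_
  rw [← LinearMap.ker_eq_bot, LinearMap.ker_eq_bot']
  rintro ⟨x, hx⟩ h
  apply Subtype.ext
  funext σ a
  apply AddMonoidAlgebra.ext
  ext α
  by_cases hα : α ∈ B
  · exact congrFun (congrFun (congrFun h σ) a) ⟨α, hα⟩
  · exact hx σ a α hα

/-- the cocycles -/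
def Coc (Λ : Type v) [CommRing Λ] (m r : ℕ) (e : ℤ) (B : Set (Fin m → ℤ)) :
    Submodule Λ (Finset (Fin m) → Fin r → LP Λ m) where
  carrier := {x | InC (cs (OX Λ m r e)) x ∧ cd x = 0 ∧ x ∈ Sup Λ m r B}
  zero_mem' := ⟨⟨rfl, fun σ _ => (OX Λ m r e σ).zero_mem⟩, cd_zero, Submodule.zero_mem _⟩
  add_mem' := by
    rintro x y ⟨⟨h1, h2⟩, h3, h4⟩ ⟨⟨h1', h2'⟩, h3', h4'⟩
    refine ⟨⟨?_, fun σ hσ => (OX Λ m r e σ).add_mem (h2 σ hσ) (h2' σ hσ)⟩, ?_,
      Submodule.add_mem _ h4 h4'⟩
    · rw [Pi.add_apply, h1, h1', add_zero]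
    · rw [cd_add, h3, h3', add_zero]
  smul_mem' := by
    rintro c x ⟨⟨h1, h2⟩, h3, h4⟩
    refine ⟨⟨?_, fun σ hσ => (OX Λ m r e σ).smul_mem c (h2 σ hσ)⟩, ?_,
      Submodule.smul_mem _ c h4⟩
    · rw [Pi.smul_apply, h1, smul_zero]
    · rw [cd_smul, h3, smul_zero]

theorem cd_lin (f : (Fin r → LP Λ m) →ₗ[Λ] (Fin r → LP Λ m))
    (x : Finset (Fin m) → Fin r → LP Λ m) : cd (fun σ => f (x σ)) = fun σ => f (cd x σ) :=
  cd_map f.toAddMonoidHom x

end OXF_

open OXF_ in
theorem OXF : Stmt_OXF.{v} := by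
  classical
  intro Λ _ _ m r e j
  have hfg : (Coc Λ m r e (Bad m e)).FG :=
    isNoetherian_submodule.1 (noeth (Λ := Λ) (r := r) (Bad m e) (Bad_finite m e)) _
      (fun x hx => hx.2.2)
  obtain ⟨G, hG⟩ := hfg
  refine ⟨G, fun x hx => ?_, fun x hx hc => ?_⟩
  · have h1 : x ∈ Coc Λ m r e (Bad m e) := by
      rw [← hG]
      exact Submodule.subset_span hx
    exact ⟨h1.1, h1.2.1⟩
  · have hcoef : ∀ σ a α, (x σ a).coeff α ≠ 0 → σ.Nonempty ∧ α ∈ Adm e σ := by
      intro σ a α h
      have hne : σ.Nonempty := by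
        rw [Finset.nonempty_iff_ne_empty]
        rintro rfl
        rw [hx.1.1] at h
        exact h rfl
      exact ⟨hne, mem_OO.1 (mem_OX.1 (hx.1.2 σ hne) a) α h⟩
    have hsum : ∀ σ a α, (x σ a).coeff α ≠ 0 → ∑ w, α w = e := fun σ a α h =>
      (hcoef σ a α h).2.1
    let y : Finset (Fin m) → Fin r → LP Λ m :=
      ∑ u, fun σ => flt Λ m r (Fst e u) (kk u x σ)
    have hy : cd y = x - fun σ => flt Λ m r (· ∈ Bad m e) (x σ) := by
      have e1 : cd y = ∑ u, fun σ => flt Λ m r (Fst e u) (x σ) := by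
        rw [cd_sum]
        refine Finset.sum_congr rfl (fun u _ => ?_)
        rw [cd_lin, cd_kk_of_cocycle u hc]
      rw [e1]
      funext σ
      rw [Finset.sum_apply, Pi.sub_apply, eq_sub_iff_add_eq, add_comm]
      exact (decomp e (x σ) (hsum σ)).symm
    refine ⟨y, ⟨?_, ?_⟩, ?_⟩
    · change (∑ u, fun σ => flt Λ m r (Fst e u) (kk u x σ)) ∅ = 0
      rw [Finset.sum_apply]
      refine Finset.sum_eq_zero (fun u _ => ?_)
      rw [kk_not _ (Finset.notMem_empty u), map_zsmul]
      have : flt Λ m r (Fst e u) (x (insert u ∅)) = 0 := by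
        funext a
        apply AddMonoidAlgebra.ext
        ext α
        rw [coeff_flt]
        split_ifs with h
        · by_contra h0
          have h1 := (hcoef _ a α h0).2
          refine h.1 ⟨h1.1, Or.inl fun w => ?_⟩
          by_cases hw : w = u
          · rw [hw]
            exact h.2.1
          · exact h1.2 w (by simpa using hw)
        · rfl
      rw [this, smul_zero]
    · intro σ hσ
      change (∑ u, fun σ => flt Λ m r (Fst e u) (kk u x σ)) σ ∈ OX Λ m r e σ
      rw [Finset.sum_apply]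
      refine Submodule.sum_mem _ (fun u _ => ?_)
      by_cases hu : u ∈ σ
      · rw [kk_mem _ hu, map_zero]
        exact Submodule.zero_mem _
      · rw [kk_not _ hu, map_zsmul]
        refine AddSubgroup.zsmul_mem (OX Λ m r e σ).toAddSubgroup ?_ _
        change _ ∈ OX Λ m r e σ
        rw [mem_OX]
        intro a
        rw [mem_OO]
        intro α hα
        rw [coeff_flt] at hα
        split_ifs at hα with h
        · have h1 := (hcoef _ a α hα).2
          refine ⟨h1.1, fun w hw => ?_⟩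
          by_cases hw' : w = u
          · rw [hw']
            exact h.2.1
          · exact h1.2 w (by simp [hw', hw])
        · exact absurd rfl hα
    · rw [hy, sub_sub_cancel, hG]
      refine ⟨⟨?_, ?_⟩, ?_, ?_⟩
      · change flt Λ m r (· ∈ Bad m e) (x ∅) = 0
        rw [hx.1.1, map_zero]
      · intro σ hσ
        change flt Λ m r (· ∈ Bad m e) (x σ) ∈ OX Λ m r e σ
        rw [mem_OX]
        intro a
        rw [mem_OO]
        intro α hα
        rw [coeff_flt] at hα
        split_ifs at hα with h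
        · exact (hcoef σ a α hα).2
        · exact absurd rfl hα
      · rw [cd_lin, hc]
        funext σ
        exact map_zero _
      · intro σ a α hα
        rw [coeff_flt, if_neg hα]

end

end Pool.Agent.DBX.SER
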