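import Pool.Agent.DBX.SER.Stmts

set_option autoImplicit false

namespace Pool.Agent.DBX.SER

open Pool.Agent.DBX

noncomputable section

universe v

namespace OXV_

variable {Λ : Type v} [CommRing Λ] {m r : ℕ}

/-- the part of `y` with exponents in `U α = u` -/
def fil (Λ : Type v) [CommRing Λ] (r : ℕ) (U : (Fin m → ℤ) → Fin m) (u : Fin m) :
    (Fin r → LP Λ m) →+ (Fin r → LP Λ m) where
  toFun y := fun a => AddMonoidAlgebra.ofCoeff (Finsupp.filter (fun α => U α = u) (y a).coeff)
  map_zero' := by
    funext a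
    change AddMonoidAlgebra.ofCoeff (Finsupp.filter (fun α => U α = u)
      (0 : (Fin m → ℤ) →₀ Λ)) = 0
    rw [Finsupp.filter_zero]
    rfl
  map_add' y z := by
    funext a
    simp only [Pi.add_apply, AddMonoidAlgebra.coeff_add, Finsupp.filter_add,
      AddMonoidAlgebra.ofCoeff_add]

theorem fil_coeff (U : (Fin m → ℤ) → Fin m) (u : Fin m) (y : Fin r → LP Λ m) (a : Fin r)
    (α : Fin m → ℤ) :
    (fil Λ r U u y a).coeff α = if U α = u then (y a).coeff α else 0 := by
  change (Finsupp.filter (fun α => U α = u) (y a).coeff) α = _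
  rw [Finsupp.filter_apply]

theorem sum_fil (U : (Fin m → ℤ) → Fin m) (y : Fin r → LP Λ m) :
    ∑ u, fil Λ r U u y = y := by
  funext a
  rw [Finset.sum_apply]
  apply AddMonoidAlgebra.coeff_injective
  rw [AddMonoidAlgebra.coeff_sum]
  ext α
  rw [Finsupp.finsetSum_apply]
  simp only [fil_coeff]
  rw [Finset.sum_ite_eq Finset.univ (U α) (fun _ => (y a).coeff α)]
  simp

theorem neg_free {e : ℤ} (he : 0 ≤ e) (u0 : Fin m) (α : Fin m → ℤ) (h : ∑ w, α w = e) :
    ∃ u, 0 ≤ α u := by
  by_contra hc
  push Not at hc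
  have : ∑ w, α w < 0 := Finset.sum_neg (fun w _ => hc w) ⟨u0, Finset.mem_univ _⟩
  omega

theorem part1 {e : ℤ} (he : 0 ≤ e) (j : ℕ) (hj : 2 ≤ j) : Van (cs (OX Λ m r e)) j := by
  classical
  intro x hx hcd
  rcases Nat.eq_zero_or_pos m with hm | hm
  · subst hm
    refine ⟨0, ⟨rfl, fun σ _ => (OX Λ 0 r e σ).zero_mem⟩, ?_⟩
    rw [cd_zero]
    funext σ
    have h1 : σ.card ≠ j := by
      have h2 : σ.card ≤ Fintype.card (Fin 0) := Finset.card_le_univ σ
      rw [Fintype.card_fin] at h2
      omega
    rw [hx.2 σ h1]; rfl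
  let u0 : Fin m := ⟨0, hm⟩
  let U : (Fin m → ℤ) → Fin m := fun α => if h : ∃ u, 0 ≤ α u then h.choose else u0
  have hU : ∀ α : Fin m → ℤ, (∑ w, α w = e) → 0 ≤ α (U α) := by
    intro α hα
    have h := neg_free he u0 α hα
    have h1 : U α = h.choose := dif_pos h
    rw [h1]
    exact h.choose_spec
  let X : Fin m → Finset (Fin m) → Fin r → LP Λ m := fun u σ => fil Λ r U u (x σ)
  have hX : ∀ u, cd (X u) = 0 := by
    intro u
    have h1 := cd_map (fil Λ r U u) x
    change cd (fun σ => fil Λ r U u (x σ)) = 0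
    rw [h1, hcd]
    funext σ
    exact map_zero _
  refine ⟨∑ u, kk u (X u), ⟨?_, ?_⟩, ?_⟩
  · rw [Finset.sum_apply]
    refine Finset.sum_eq_zero (fun u _ => ?_)
    rw [kk_not _ (Finset.notMem_empty u)]
    have h1 : x (insert u ∅) = 0 := hx.2 _ (by simp; omega)
    change sg ∅ u • fil Λ r U u (x (insert u ∅)) = 0
    rw [h1, map_zero, smul_zero]
  · intro σ hσ
    change (∑ u, kk u (X u)) σ ∈ OX Λ m r e σ
    rw [Finset.sum_apply]
    refine Submodule.sum_mem _ (fun u _ => ?_)
    by_cases hu : u ∈ σ
    · rw [kk_mem _ hu]; exact Submodule.zero_mem _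
    · rw [kk_not _ hu]
      refine Submodule.smul_of_tower_mem _ _ ?_
      rw [mem_OX]
      intro a
      rw [mem_OO]
      intro α hα
      change (fil Λ r U u (x (insert u σ)) a).coeff α ≠ 0 at hα
      rw [fil_coeff] at hα
      split_ifs at hα with h1
      · have h2 : x (insert u σ) ∈ OX Λ m r e (insert u σ) :=
          hx.1.2 _ (Finset.insert_nonempty u σ)
        rw [mem_OX] at h2
        have h3 := mem_OO.mp (h2 a) α hα
        refine ⟨h3.1, fun w hw => ?_⟩
        by_cases hwu : w = u
        · subst hwu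
          have := hU α h3.1
          rwa [h1] at this
        · refine h3.2 w ?_
          rw [Finset.mem_insert]
          rintro (h4 | h4)
          · exact hwu h4
          · exact hw h4
      · exact absurd rfl hα
  · rw [cd_sum]
    have h1 : ∀ u ∈ (Finset.univ : Finset (Fin m)), cd (kk u (X u)) = X u :=
      fun u _ => cd_kk_of_cocycle u (hX u)
    rw [Finset.sum_congr rfl h1]
    funext σ
    rw [Finset.sum_apply]
    exact sum_fil U (x σ)

theorem const (z : Finset (Fin m) → Fin r → LP Λ m) (hz : cd z = 0) (u w : Fin m) :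
    z {u} = z {w} := by
  by_cases h : u = w
  · rw [h]
  have h1 : cd z {u, w} = 0 := by rw [hz]; rfl
  have hne : u ∉ ({w} : Finset (Fin m)) := by simpa using h
  have hw2 : w ∉ ({u} : Finset (Fin m)) := by simpa using (Ne.symm h)
  have e1 : ({u, w} : Finset (Fin m)).erase u = {w} := Finset.erase_insert hne
  have e2 : ({u, w} : Finset (Fin m)).erase w = {u} := by
    rw [Finset.pair_comm]; exact Finset.erase_insert hw2
  rw [cd_sg, Finset.sum_insert hne, Finset.sum_singleton, e1, e2] at h1
  rcases lt_or_gt_of_ne h with h2 | h2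
  · have s1 : sg ({u, w} : Finset (Fin m)) u = 1 := by
      unfold sg
      have : ({u, w} : Finset (Fin m)).filter (fun x => x < u) = ∅ := by
        ext x
        simp only [Finset.mem_filter, Finset.mem_insert, Finset.mem_singleton, Finset.notMem_empty,
          iff_false, not_and, not_lt]
        rintro (rfl | rfl)
        · exact le_rfl
        · exact h2.le
      rw [this]; rfl
    have s2 : sg ({u, w} : Finset (Fin m)) w = -1 := by
      unfold sg
      have : ({u, w} : Finset (Fin m)).filter (fun x => x < w) = {u} := by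
        ext x
        simp only [Finset.mem_filter, Finset.mem_insert, Finset.mem_singleton]
        constructor
        · rintro ⟨rfl | rfl, h3⟩
          · rfl
          · exact absurd h3 (lt_irrefl _)
        · rintro rfl
          exact ⟨Or.inl rfl, h2⟩
      rw [this]; simp
    rw [s1, s2, one_smul, neg_smul, one_smul, ← sub_eq_add_neg, sub_eq_zero] at h1
    exact h1.symm
  · have s1 : sg ({u, w} : Finset (Fin m)) w = 1 := by
      unfold sg
      have : ({u, w} : Finset (Fin m)).filter (fun x => x < w) = ∅ := by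
        ext x
        simp only [Finset.mem_filter, Finset.mem_insert, Finset.mem_singleton, Finset.notMem_empty,
          iff_false, not_and, not_lt]
        rintro (rfl | rfl)
        · exact h2.le
        · exact le_rfl
      rw [this]; rfl
    have s2 : sg ({u, w} : Finset (Fin m)) u = -1 := by
      unfold sg
      have : ({u, w} : Finset (Fin m)).filter (fun x => x < u) = {w} := by
        ext x
        simp only [Finset.mem_filter, Finset.mem_insert, Finset.mem_singleton]
        constructor
        · rintro ⟨rfl | rfl, h3⟩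
          · exact absurd h3 (lt_irrefl _)
          · rfl
        · rintro rfl
          exact ⟨Or.inr rfl, h2⟩
      rw [this]; simp
    rw [s1, s2, one_smul, neg_smul, one_smul, add_comm, ← sub_eq_add_neg, sub_eq_zero] at h1
    exact h1

theorem part2 {e : ℤ} (he : 0 ≤ e) (z : Finset (Fin m) → Fin r → LP Λ m)
    (hz : InCj (cs (OX Λ m r e)) 1 z) (hcd : cd z = 0) :
    ∃ p : Fin r → LP Λ m, (∀ v, z {v} = p) ∧
      ∀ a α, (p a).coeff α ≠ 0 → (∀ w, 0 ≤ α w) ∧ ∑ w, α w = e := by
  rcases Nat.eq_zero_or_pos m with hm | hm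
  · subst hm
    refine ⟨0, fun v => v.elim0, ?_⟩
    intro a α h
    exact absurd rfl h
  let u0 : Fin m := ⟨0, hm⟩
  refine ⟨z {u0}, fun v => const z hcd v u0, ?_⟩
  intro a α hα
  have h1 : ∀ v : Fin m, α ∈ Adm e {v} := by
    intro v
    have h2 : z {v} ∈ OX Λ m r e {v} := hz.1.2 _ (Finset.singleton_nonempty v)
    rw [mem_OX] at h2
    refine mem_OO.mp (h2 a) α ?_
    rw [const z hcd v u0]
    exact hα
  refine ⟨fun w => ?_, (h1 u0).1⟩
  by_cases hv : ∃ v : Fin m, v ≠ w
  · obtain ⟨v, hv⟩ := hv
    refine (h1 v).2 w ?_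
    rw [Finset.mem_singleton]
    exact Ne.symm hv
  · push Not at hv
    have h2 : ∑ x, α x = α w := by
      rw [Finset.sum_eq_single w]
      · intro b _ hb
        exact absurd (hv b) hb
      · intro h; exact absurd (Finset.mem_univ w) h
    have h3 := (h1 w).1
    rw [h2] at h3
    omega

end OXV_

theorem OXV : Stmt_OXV.{v} := by
  intro Λ _ m r e he
  exact ⟨fun j hj => OXV_.part1 he j hj, fun z hz hcd => OXV_.part2 he z hz hcd⟩

end

end Pool.Agent.DBX.SER
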