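import Pool.Agent.DBX.SER.Stmts

set_option autoImplicit false

/-! # MP_2c751f_ag, squad DBX, area SER: global sections of large twists -/

namespace Pool.Agent.DBX.SER

open Pool.Agent.DBX

noncomputable section

universe u v w

namespace SE3_

/-- the cochain with value `x` at the empty set -/
def c0 {𝔸 : Type*} [AddCommGroup 𝔸] {m : ℕ} (x : 𝔸) (σ : Finset (Fin m)) : 𝔸 :=
  if σ = ∅ then x else 0

/-- the constant cochain of degree one -/
def z0 {𝔸 : Type*} [AddCommGroup 𝔸] {m : ℕ} (x : 𝔸) (σ : Finset (Fin m)) : 𝔸 :=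
  if σ.card = 1 then x else 0

theorem cd_c0 {𝔸 : Type*} [AddCommGroup 𝔸] {m : ℕ} (x : 𝔸) :
    cd (c0 (m := m) x) = z0 x := by
  funext σ
  unfold z0
  split_ifs with h
  · obtain ⟨v, rfl⟩ := Finset.card_eq_one.mp h
    rw [cd_singleton]
    unfold c0
    rw [if_pos rfl]
  · rw [cd_apply]
    refine Finset.sum_eq_zero (fun v hv => ?_)
    have h1 : σ.erase v ≠ ∅ := by
      intro h2
      apply h
      have h3 := Finset.card_erase_add_one hv
      rw [h2, Finset.card_empty] at h3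
      exact h3.symm
    unfold c0
    rw [if_neg h1, smul_zero]

theorem cd_z0 {𝔸 : Type*} [AddCommGroup 𝔸] {m : ℕ} (x : 𝔸) : cd (z0 (m := m) x) = 0 := by
  rw [← cd_c0, cd_cd]

variable {Λ : Type v} {Q 𝕄 : Type u} [CommRing Λ] [CommRing Q] [Algebra Λ Q] [AddCommGroup 𝕄]
  [Module Λ 𝕄] [Module Q 𝕄] [IsScalarTower Λ Q 𝕄] {m : ℕ}

theorem pow_mem (h : Fin m → Qˣ) (N : ℕ → Submodule Λ 𝕄)
    (hN : ∀ e v, ∀ x ∈ N e, ((h v : Qˣ) : Q) • x ∈ N (e + 1)) (v : Fin m) (k : ℕ) :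
    ∀ e, ∀ x ∈ N e, (((h v) ^ k : Qˣ) : Q) • x ∈ N (e + k) := by
  induction k with
  | zero =>
    intro e x hx
    rw [pow_zero, Units.val_one, one_smul, add_zero]
    exact hx
  | succ k ih =>
    intro e x hx
    rw [pow_succ', Units.val_mul, mul_smul, ← add_assoc]
    exact hN _ _ _ (ih e x hx)

theorem prod_mem (h : Fin m → Qˣ) (N : ℕ → Submodule Λ 𝕄)
    (hN : ∀ e v, ∀ x ∈ N e, ((h v : Qˣ) : Q) • x ∈ N (e + 1)) (α : Fin m → ℕ)
    (s : Finset (Fin m)) :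
    ∀ e, ∀ x ∈ N e, ((∏ w ∈ s, (h w) ^ α w : Qˣ) : Q) • x ∈ N (e + ∑ w ∈ s, α w) := by
  induction s using Finset.induction_on with
  | empty =>
    intro e x hx
    rw [Finset.prod_empty, Units.val_one, one_smul, Finset.sum_empty, add_zero]
    exact hx
  | insert a s ha ih =>
    intro e x hx
    rw [Finset.prod_insert ha, Finset.sum_insert ha, Units.val_mul, mul_smul]
    have h1 := pow_mem h N hN a (α a) _ _ (ih e x hx)
    have h2 : e + ∑ w ∈ s, α w + α a = e + (α a + ∑ w ∈ s, α w) := by ring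
    rwa [h2] at h1

theorem hm_mem (h : Fin m → Qˣ) (N : ℕ → Submodule Λ 𝕄)
    (hN : ∀ e v, ∀ x ∈ N e, ((h v : Qˣ) : Q) • x ∈ N (e + 1)) (α : Fin m → ℤ)
    (hα : ∀ w, 0 ≤ α w) (K0 e : ℕ) (hs : ∑ w, α w = (e : ℤ) - K0) (x : 𝕄) (hx : x ∈ N K0) :
    (hm h α : Q) • x ∈ N e := by
  have h1 := prod_mem h N hN (fun w => (α w).toNat) Finset.univ K0 x hx
  have h2 : ∏ w, (h w) ^ (α w).toNat = hm h α := by
    unfold hm
    refine Finset.prod_congr rfl (fun w _ => ?_)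
    rw [← zpow_natCast, Int.toNat_of_nonneg (hα w)]
  have h3 : ((∑ w, (α w).toNat : ℕ) : ℤ) = ∑ w, α w := by
    rw [Nat.cast_sum]
    exact Finset.sum_congr rfl (fun w _ => Int.toNat_of_nonneg (hα w))
  have h4 : K0 + ∑ w, (α w).toNat = e := by
    rw [hs] at h3
    omega
  rw [h2, h4] at h1
  exact h1

end SE3_

open SE3_ in
theorem SE3 (hgnn : Stmt_GNN.{u, v}) (hfn2 : Stmt_FN2.{v, v}) (hles : Stmt_LES.{v, v, u})
    (hoxv : Stmt_OXV.{v}) (hsuj : Stmt_SUJ.{u, v}) (hker : Stmt_KER.{u, v}) :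
    Stmt_SER3.{u, v} := by
  intro Λ Q 𝕄 _ _ _ _ _ _ _ _ m h M N hm0 hM hN0 hNs hMv
  obtain ⟨K0, r, g, hg, hgN⟩ := hgnn Λ Q 𝕄 m h M N hM hN0 hNs hMv
  obtain ⟨hk1, hk2⟩ := hker Λ Q 𝕄 m r h K0 g
  obtain ⟨e1, he1⟩ := hfn2 Λ (LP Λ m) (Fin r → LP Λ m) m (Yu Λ m) (Ker (Λ := Λ) h K0 g) hk1 2
    le_rfl
  have hN : ∀ e v, ∀ x ∈ N e, ((h v : Qˣ) : Q) • x ∈ N (e + 1) := by
    intro e v x hx
    rw [hNs]
    refine ⟨Pi.single v x, ?_, ?_⟩
    · intro w
      by_cases hw : w = v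
      · subst hw
        rw [Pi.single_eq_same]
        exact hx
      · rw [Pi.single_eq_of_ne hw]
        exact (N e).zero_mem
    · rw [Finset.sum_eq_single v]
      · rw [Pi.single_eq_same]
      · intro w _ hw
        rw [Pi.single_eq_of_ne hw, smul_zero]
      · intro h1
        exact absurd (Finset.mem_univ v) h1
  refine ⟨max e1.toNat K0, fun e he x hx => ?_⟩
  have hee1 : e1 ≤ (e : ℤ) := by
    have h1 := Int.self_le_toNat e1
    have h2 := le_trans (le_max_left _ _) he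
    have h3 : (e1.toNat : ℤ) ≤ e := by exact_mod_cast h2
    exact h1.trans h3
  have heK : K0 ≤ e := le_trans (le_max_right _ _) he
  have hz : InCj (cs (twS h M (e : ℤ))) 1 (z0 (m := m) x) := by
    refine ⟨⟨?_, fun σ _ => ?_⟩, fun σ hσ => ?_⟩
    · unfold z0
      rw [if_neg (by simp)]
    · unfold z0
      split_ifs with h1
      · obtain ⟨v, rfl⟩ := Finset.card_eq_one.mp h1
        change x ∈ twS h M (e : ℤ) {v}
        rw [mem_twS]
        intro w hw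
        rw [Finset.mem_singleton] at hw
        subst hw
        rw [zpow_neg, zpow_natCast]
        exact hx w
      · exact (twS h M (e : ℤ) σ).zero_mem
    · unfold z0
      rw [if_neg hσ]
  obtain ⟨y, hy, hy0, hyz⟩ := hles Λ (Fin r → LP Λ m) 𝕄 m (OX Λ m r ((e : ℤ) - K0))
    (twS (Yu Λ m) (Ker (Λ := Λ) h K0 g) e) (twS h M e) (pr Λ h g)
    (fun _ _ _ h => OX_mono _ h) (fun σ hσ x => hk2 e σ hσ x)
    (fun σ hσ y => hsuj Λ Q 𝕄 m r h M K0 g hM hg e σ hσ y) 1 (he1 e hee1) _ hz (cd_z0 x)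
  have heK' : 0 ≤ (e : ℤ) - K0 := by
    have : (K0 : ℤ) ≤ e := by exact_mod_cast heK
    omega
  obtain ⟨p, hp, hpα⟩ := (hoxv Λ m r ((e : ℤ) - K0) heK').2 y hy hy0
  have hxp : x = pr Λ h g p := by
    have h1 := hyz {⟨0, hm0⟩}
    rw [hp] at h1
    rw [h1]
    unfold z0
    rw [if_pos (Finset.card_singleton _)]
  rw [hxp, pr_apply]
  refine Submodule.sum_mem _ (fun a _ => ?_)
  have h1 : p a = (p a).coeff.sum AddMonoidAlgebra.single :=
    (AddMonoidAlgebra.sum_coeff_single (p a)).symm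
  rw [h1, Finsupp.sum, map_sum, Finset.sum_smul]
  refine Submodule.sum_mem _ (fun α hα => ?_)
  rw [ev_single, smul_assoc]
  refine Submodule.smul_mem _ _ ?_
  have h2 : (p a).coeff α ≠ 0 := by simpa using hα
  obtain ⟨h3, h4⟩ := hpα a α h2
  exact hm_mem h N hN α h3 K0 e h4 (g a) (hgN a)

end

end Pool.Agent.DBX.SER
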