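import Pool.Agent.DBX.SER.Stmts

set_option autoImplicit false

/-! # MP_2c751f_ag, squad DBX, area SER: module SUJ, `O(e - K0)^r → M(e)` is onto -/

namespace Pool.Agent.DBX.SER

open Pool.Agent.DBX

noncomputable section

universe u v w

theorem SUJ (hd : Stmt_DEN.{u, v}) : Stmt_SUJ.{u, v} := by
  intro Λ Q 𝕄 _ _ _ _ _ _ _ m r h M K0 g hM hg e σ hσ y
  constructor
  · intro hy
    obtain ⟨v, hv⟩ := hσ
    have h1 := hy v hv
    obtain ⟨N, hN⟩ := hd.1 Λ Q 𝕄 m h M hM σ v hv _ h1
    have h2 := hN N le_rfl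
    obtain ⟨c, hc, hc2⟩ := hg.2 v _ h2
    choose x hx hx2 using fun a => exists_ev h (hc a)
    refine ⟨fun a => ((mo Λ (-dv σ v N + Pi.single v (e - K0)) : (LP Λ m)ˣ) : LP Λ m) * x a,
      ?_, ?_⟩
    · rw [mem_OX]
      intro a
      have h3 : -dv σ v N + Pi.single v (e - K0) ∈ Adm (e - K0) σ := by
        have h4 := Adm_add (dv_Adm hv (-(N : ℤ))) (Adm_single hv (e - K0))
        rwa [zero_add, dv_neg] at h4
      have h5 := mo_mul_mem h3 (OO_mono (Finset.singleton_subset_iff.mpr hv) (hx a))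
      rwa [add_zero] at h5
    · rw [pr_apply]
      have h6 : ∀ a, ev Λ h (((mo Λ (-dv σ v N + Pi.single v (e - K0)) : (LP Λ m)ˣ) : LP Λ m) *
          x a) • g a =
          ((((h v) ^ e * (hm h (dv σ v N))⁻¹ : Qˣ)) : Q) •
            (c a • ((((h v) ^ (-K0) : Qˣ) : Q) • g a)) := by
        intro a
        rw [map_mul, ev_mo, hx2, hm_add, hm_neg, hm_single, smul_smul, smul_smul]
        congr 1
        rw [zpow_sub, zpow_neg]
        simp only [Units.val_mul]
        ring
      rw [Finset.sum_congr rfl (fun a _ => h6 a), ← Finset.smul_sum, ← hc2, smul_smul, smul_smul,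
        ← Units.val_mul, ← Units.val_mul, zpow_neg]
      have h7 : (h v) ^ e * (hm h (dv σ v N))⁻¹ * hm h (dv σ v N) * ((h v) ^ e)⁻¹ = 1 := by
        group
      rw [h7, Units.val_one, one_smul]
  · rintro ⟨x, hx, rfl⟩ v hv
    rw [pr_apply, Finset.smul_sum]
    refine Submodule.sum_mem _ (fun a _ => ?_)
    have h1 : (((h v) ^ (-e) : Qˣ) : Q) • ev Λ h (x a) • g a =
        ev Λ h (((mo Λ (Pi.single v (K0 - e)) : (LP Λ m)ˣ) : LP Λ m) * x a) •
          ((((h v) ^ (-K0) : Qˣ) : Q) • g a) := by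
      rw [map_mul, ev_mo, hm_single, smul_smul, smul_smul, mul_right_comm, ← Units.val_mul,
        ← zpow_add]
      congr 3
      congr 1
      ring
    rw [h1]
    refine hM.smul σ hσ _ (ev_mem_Prg h hσ ?_) _ ?_
    · have h2 := mo_mul_mem (Adm_single hv (K0 - e)) (mem_OX.mp hx a)
      rwa [show (K0 - e) + (e - K0) = 0 from by ring] at h2
    · exact hM.mono {v} σ (Finset.singleton_nonempty v) (Finset.singleton_subset_iff.mpr hv)
        (hg.1 a v)

end

end Pool.Agent.DBX.SER
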