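import Pool.Agent.DBX.SER.FN
import Pool.Agent.DBX.SER.DEN
import Pool.Agent.DBX.SER.GEN
import Pool.Agent.DBX.SER.GNN
import Pool.Agent.DBX.SER.KER
import Pool.Agent.DBX.SER.LEF
import Pool.Agent.DBX.SER.LES
import Pool.Agent.DBX.SER.OXF
import Pool.Agent.DBX.SER.OXV
import Pool.Agent.DBX.SER.SE3
import Pool.Agent.DBX.SER.SUJ

set_option autoImplicit false

/-! # MP_2c751f_ag, squad DBX, area SER: Serre's theorems -/

namespace Pool.Agent.DBX.SER

open Pool.Agent.DBX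

universe u v

theorem all_fn1 : Stmt_FN1.{u, v} :=
  FN1 LEF OXF (GEN DEN) (SUJ DEN) (KER DEN) LEF (GEN DEN) (SUJ DEN) (KER DEN)

theorem all_fn2 : Stmt_FN2.{u, v} :=
  FN2 LES OXV (GEN DEN) (SUJ DEN) (KER DEN) LES (GEN DEN) (SUJ DEN) (KER DEN)

/-- Finiteness of cohomology. -/
theorem a_ser1 : Stmt_SER1.{u, v} := SE1 all_fn1

/-- Vanishing of the higher cohomology of large twists. -/
theorem a_ser2 : Stmt_SER2.{u, v} := SE2 all_fn2

/-- Global sections of large twists. -/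
theorem a_ser3 : Stmt_SER3.{u, v} := SE3 GNN all_fn2 LES OXV (SUJ DEN) (KER DEN)

end Pool.Agent.DBX.SER
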