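import Pool.Agent.DBX.SER.Defs

set_option autoImplicit false

/-! # MP_2c751f_ag, squad DBX, area SER: basic facts -/

namespace Pool.Agent.DBX.SER

open Pool.Agent.DBX

noncomputable section

universe u v w

section monomials

variable {Q : Type u} [CommRing Q] {m : ℕ}

theorem hm_zero (h : Fin m → Qˣ) : hm h 0 = 1 := by simp [hm]

theorem hm_add (h : Fin m → Qˣ) (α β : Fin m → ℤ) : hm h (α + β) = hm h α * hm h β := by
  simp only [hm, Pi.add_apply, zpow_add, Finset.prod_mul_distrib]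

theorem hm_neg (h : Fin m → Qˣ) (α : Fin m → ℤ) : hm h (-α) = (hm h α)⁻¹ := by
  simp only [hm, Pi.neg_apply, zpow_neg, Finset.prod_inv_distrib]

theorem hm_sub (h : Fin m → Qˣ) (α β : Fin m → ℤ) : hm h (α - β) = hm h α * (hm h β)⁻¹ := by
  rw [sub_eq_add_neg, hm_add, hm_neg]

theorem hm_single (h : Fin m → Qˣ) (v : Fin m) (n : ℤ) : hm h (Pi.single v n) = h v ^ n := by
  unfold hm
  rw [Finset.prod_eq_single v]
  · rw [Pi.single_eq_same]
  · intro w _ hw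
    rw [Pi.single_eq_of_ne hw, zpow_zero]
  · intro h1; exact absurd (Finset.mem_univ v) h1

theorem Adm_zero (σ : Finset (Fin m)) : (0 : Fin m → ℤ) ∈ Adm 0 σ := by
  constructor
  · simp
  · intro w _; exact le_rfl

theorem Adm_add {d e : ℤ} {σ : Finset (Fin m)} {α β : Fin m → ℤ} (hα : α ∈ Adm d σ)
    (hβ : β ∈ Adm e σ) : α + β ∈ Adm (d + e) σ := by
  constructor
  · simp only [Pi.add_apply, Finset.sum_add_distrib, hα.1, hβ.1]
  · intro w hw
    exact add_nonneg (hα.2 w hw) (hβ.2 w hw)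

theorem Adm_mono {e : ℤ} {σ τ : Finset (Fin m)} (h : σ ⊆ τ) {α : Fin m → ℤ}
    (hα : α ∈ Adm e σ) : α ∈ Adm e τ :=
  ⟨hα.1, fun w hw => hα.2 w (fun h1 => hw (h h1))⟩

theorem Adm_single {σ : Finset (Fin m)} {v : Fin m} (hv : v ∈ σ) (n : ℤ) :
    (Pi.single v n : Fin m → ℤ) ∈ Adm n σ := by
  constructor
  · simp
  · intro w hw
    rw [Pi.single_eq_of_ne]
    rintro rfl; exact hw hv

theorem Adm_single_nonneg (σ : Finset (Fin m)) (v : Fin m) {n : ℤ} (hn : 0 ≤ n) :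
    (Pi.single v n : Fin m → ℤ) ∈ Adm n σ := by
  constructor
  · simp
  · intro w _
    by_cases h : w = v
    · subst h; rwa [Pi.single_eq_same]
    · rw [Pi.single_eq_of_ne h]

theorem dv_sum (σ : Finset (Fin m)) (v : Fin m) (N : ℤ) : ∑ w, dv σ v N w = 0 := by
  unfold dv
  rw [Finset.sum_sub_distrib]
  simp [mul_comm]

theorem dv_neg (σ : Finset (Fin m)) (v : Fin m) (N : ℤ) : dv σ v (-N) = - dv σ v N := by
  funext w
  simp only [dv, Pi.neg_apply]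
  split_ifs <;> ring

theorem dv_add (σ : Finset (Fin m)) (v : Fin m) (N K : ℤ) :
    dv σ v (N + K) = dv σ v N + dv σ v K := by
  funext w
  simp only [dv, Pi.add_apply]
  split_ifs <;> ring

theorem dv_Adm_single (σ : Finset (Fin m)) (v : Fin m) {N : ℤ} (hN : 0 ≤ N) :
    dv σ v N ∈ Adm 0 {v} := by
  refine ⟨dv_sum σ v N, fun w hw => ?_⟩
  rw [Finset.mem_singleton] at hw
  simp only [dv, hw, if_false]
  split_ifs <;> simp [hN]

theorem dv_Adm {σ : Finset (Fin m)} {v : Fin m} (hv : v ∈ σ) (N : ℤ) :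
    dv σ v N ∈ Adm 0 σ := by
  refine ⟨dv_sum σ v N, fun w hw => ?_⟩
  have h1 : w ≠ v := by rintro rfl; exact hw hv
  simp only [dv, h1, hw, if_false]
  simp

variable {Λ : Type v} [CommRing Λ] [Algebra Λ Q]

theorem Prg_mono (h : Fin m → Qˣ) {σ τ : Finset (Fin m)} (hs : σ ⊆ τ) :
    Prg Λ h σ ≤ Prg Λ h τ := by
  refine Algebra.adjoin_mono ?_
  rintro z ⟨v, hv, w, rfl⟩
  exact ⟨v, hs hv, w, rfl⟩

theorem gen_mem_Prg (h : Fin m → Qˣ) {σ : Finset (Fin m)} {v : Fin m} (hv : v ∈ σ)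
    (w : Fin m) : (((h w) * (h v)⁻¹ : Qˣ) : Q) ∈ Prg Λ h σ := by
  apply Algebra.subset_adjoin
  exact ⟨v, hv, w, by rw [Units.val_mul]⟩

theorem hm_mem_Prg (h : Fin m → Qˣ) {σ : Finset (Fin m)} (hσ : σ.Nonempty) {α : Fin m → ℤ}
    (hα : α ∈ Adm 0 σ) : (hm h α : Q) ∈ Prg Λ h σ := by
  obtain ⟨v, hv⟩ := hσ
  have h1 : hm h α = ∏ w, ((h w) * (h v)⁻¹) ^ α w := by
    simp only [mul_zpow, Finset.prod_mul_distrib]
    have h2 : ∏ w, ((h v)⁻¹) ^ α w = 1 := by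
      have h3 := hα.1
      have h4 : ∀ s : Finset (Fin m), ∏ w ∈ s, ((h v)⁻¹) ^ α w = ((h v)⁻¹) ^ (∑ w ∈ s, α w) := by
        intro s
        induction s using Finset.induction_on with
        | empty => simp
        | insert a s ha ih => rw [Finset.prod_insert ha, Finset.sum_insert ha, zpow_add, ih]
      rw [h4, h3, zpow_zero]
    rw [h2, mul_one]; rfl
  rw [h1, Units.coe_prod]
  refine Subalgebra.prod_mem _ (fun w _ => ?_)
  by_cases hw : w ∈ σ
  · rcases le_total 0 (α w) with h4 | h4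
    · obtain ⟨n, hn⟩ := Int.eq_ofNat_of_zero_le h4
      rw [hn, zpow_natCast, Units.val_pow_eq_pow_val]
      exact Subalgebra.pow_mem _ (gen_mem_Prg h hv w) n
    · obtain ⟨n, hn⟩ := Int.eq_ofNat_of_zero_le (neg_nonneg.mpr h4)
      have h5 : α w = -(n : ℤ) := by omega
      have h6 : ((h w) * (h v)⁻¹) ^ α w = ((h v) * (h w)⁻¹) ^ n := by
        rw [h5, zpow_neg, ← inv_zpow, zpow_natCast, mul_inv_rev, inv_inv]
      rw [h6, Units.val_pow_eq_pow_val]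
      exact Subalgebra.pow_mem _ (gen_mem_Prg h hw v) n
  · obtain ⟨n, hn⟩ := Int.eq_ofNat_of_zero_le (hα.2 w hw)
    rw [hn, zpow_natCast, Units.val_pow_eq_pow_val]
    exact Subalgebra.pow_mem _ (gen_mem_Prg h hv w) n

end monomials

/-! ## Laurent polynomials -/

section laurent

variable {Λ : Type v} [CommRing Λ] {m r : ℕ}

theorem mo_val (α : Fin m → ℤ) : ((mo Λ α : (LP Λ m)ˣ) : LP Λ m) = AddMonoidAlgebra.single α 1 :=
  rfl

theorem mo_zero : (mo Λ (0 : Fin m → ℤ)) = 1 := by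
  ext1; rfl

theorem mo_add (α β : Fin m → ℤ) : mo Λ (α + β) = mo Λ α * mo Λ β := by
  ext1
  rw [Units.val_mul, mo_val, mo_val, mo_val, AddMonoidAlgebra.single_mul_single, mul_one]

theorem mo_neg (α : Fin m → ℤ) : mo Λ (-α) = (mo Λ α)⁻¹ := by
  rw [eq_inv_iff_mul_eq_one, ← mo_add, neg_add_cancel, mo_zero]

/-- `mo` as a hom. -/
def moHom (Λ : Type v) [CommRing Λ] (m : ℕ) : Multiplicative (Fin m → ℤ) →* (LP Λ m)ˣ where
  toFun α := mo Λ α.toAdd
  map_one' := mo_zero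
  map_mul' _ _ := mo_add _ _

theorem hm_Yu (α : Fin m → ℤ) : hm (Yu Λ m) α = mo Λ α := by
  have h1 : ∀ w : Fin m, Yu Λ m w ^ α w = moHom Λ m (Multiplicative.ofAdd (Pi.single w (α w))) := by
    intro w
    have h2 : (Multiplicative.ofAdd (Pi.single w (α w) : Fin m → ℤ)) =
        (Multiplicative.ofAdd (Pi.single w 1 : Fin m → ℤ)) ^ (α w) := by
      rw [← ofAdd_zsmul]
      congr 1
      funext u
      by_cases h3 : u = w
      · subst h3; simp
      · simp [Pi.single_eq_of_ne h3]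
    rw [h2, map_zpow]
    rfl
  unfold hm
  rw [Finset.prod_congr rfl (fun w _ => h1 w), ← map_prod, ← ofAdd_sum]
  change mo Λ _ = mo Λ _
  congr 1
  exact Finset.univ_sum_single α

theorem coeff_mo_mul (α : Fin m → ℤ) (x : LP Λ m) (β : Fin m → ℤ) :
    ((mo Λ α : LP Λ m) * x).coeff β = x.coeff (β - α) := by
  rw [mo_val, AddMonoidAlgebra.coeff_single_mul_eq_mul_coeff (β - α), one_mul]
  intro γ _
  constructor
  · intro h; rw [← h]; abel
  · intro h; rw [h]; abel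

theorem mem_OO {e : ℤ} {σ : Finset (Fin m)} {x : LP Λ m} :
    x ∈ OO Λ m e σ ↔ ∀ α, x.coeff α ≠ 0 → α ∈ Adm e σ := by
  unfold OO
  rw [AddMonoidAlgebra.mem_supported]
  constructor
  · intro h α hα
    exact h (by simpa using hα)
  · intro h α hα
    exact h α (by simpa using hα)

theorem mem_OX {e : ℤ} {σ : Finset (Fin m)} {y : Fin r → LP Λ m} :
    y ∈ OX Λ m r e σ ↔ ∀ a, y a ∈ OO Λ m e σ := by
  unfold OX
  rw [Submodule.mem_pi]
  simp

theorem OO_mono {e : ℤ} {σ τ : Finset (Fin m)} (h : σ ⊆ τ) : OO Λ m e σ ≤ OO Λ m e τ := by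
  intro x hx
  rw [mem_OO] at hx ⊢
  exact fun α hα => Adm_mono h (hx α hα)

theorem OX_mono (e : ℤ) {σ τ : Finset (Fin m)} (h : σ ⊆ τ) : OX Λ m r e σ ≤ OX Λ m r e τ := by
  intro x hx
  rw [mem_OX] at hx ⊢
  exact fun a => OO_mono h (hx a)

theorem mo_mul_mem {d e : ℤ} {σ : Finset (Fin m)} {α : Fin m → ℤ} (hα : α ∈ Adm e σ)
    {x : LP Λ m} (hx : x ∈ OO Λ m d σ) : (mo Λ α : LP Λ m) * x ∈ OO Λ m (e + d) σ := by
  rw [mem_OO] at hx ⊢
  intro β hβ
  rw [coeff_mo_mul] at hβ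
  have := Adm_add hα (hx _ hβ)
  rwa [add_sub_cancel] at this

theorem mo_mem {e : ℤ} {σ : Finset (Fin m)} {α : Fin m → ℤ} (hα : α ∈ Adm e σ) :
    (mo Λ α : LP Λ m) ∈ OO Λ m e σ := by
  classical
  rw [mem_OO]
  intro β hβ
  rw [mo_val, AddMonoidAlgebra.coeff_single, Finsupp.single_apply] at hβ
  split_ifs at hβ with h
  · rwa [← h]
  · exact absurd rfl hβ

theorem OO_mul {d e : ℤ} {σ : Finset (Fin m)} {x y : LP Λ m} (hx : x ∈ OO Λ m d σ)
    (hy : y ∈ OO Λ m e σ) : x * y ∈ OO Λ m (d + e) σ := by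
  have h1 : x = x.coeff.sum AddMonoidAlgebra.single := (AddMonoidAlgebra.sum_coeff_single x).symm
  rw [h1, Finsupp.sum, Finset.sum_mul]
  refine Submodule.sum_mem _ (fun α hα => ?_)
  have h2 : AddMonoidAlgebra.single α (x.coeff α) * y =
      (x.coeff α) • ((mo Λ α : LP Λ m) * y) := by
    rw [mo_val, ← smul_mul_assoc, AddMonoidAlgebra.smul_single, smul_eq_mul, mul_one]
  rw [h2]
  refine Submodule.smul_mem _ _ (mo_mul_mem ?_ hy)
  exact mem_OO.mp hx α (by simpa using hα)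

variable {Q : Type u} {𝕄 : Type w} [CommRing Q] [Algebra Λ Q]
  [AddCommGroup 𝕄] [Module Λ 𝕄] [Module Q 𝕄] [IsScalarTower Λ Q 𝕄]

theorem ev_single (h : Fin m → Qˣ) (α : Fin m → ℤ) (c : Λ) :
    ev Λ h (AddMonoidAlgebra.single α c) = c • (hm h α : Q) := by
  unfold ev
  rw [AddMonoidAlgebra.lift_single]; rfl

theorem ev_mo (h : Fin m → Qˣ) (α : Fin m → ℤ) : ev Λ h (mo Λ α : LP Λ m) = (hm h α : Q) := by
  rw [mo_val, ev_single, one_smul]

theorem ev_mem_Prg (h : Fin m → Qˣ) {σ : Finset (Fin m)} (hσ : σ.Nonempty) {x : LP Λ m}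
    (hx : x ∈ OO Λ m 0 σ) : ev Λ h x ∈ Prg Λ h σ := by
  have h1 : x = x.coeff.sum AddMonoidAlgebra.single := (AddMonoidAlgebra.sum_coeff_single x).symm
  rw [h1, Finsupp.sum, map_sum]
  refine Subalgebra.sum_mem _ (fun α hα => ?_)
  rw [ev_single]
  refine Subalgebra.smul_mem _ (hm_mem_Prg h hσ ?_) _
  exact mem_OO.mp hx α (by simpa using hα)

theorem exists_ev (h : Fin m → Qˣ) {σ : Finset (Fin m)} {a : Q} (ha : a ∈ Prg Λ h σ) :
    ∃ x ∈ OO Λ m 0 σ, ev Λ h x = a := by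
  unfold Prg at ha
  induction ha using Algebra.adjoin_induction with
  | mem z hz =>
    obtain ⟨v, hv, w, rfl⟩ := hz
    refine ⟨(mo Λ (Pi.single w 1 - Pi.single v 1) : LP Λ m), mo_mem ?_, ?_⟩
    · have h1 := Adm_add (Adm_single_nonneg (m := m) σ w (n := 1) (by norm_num))
        (Adm_single hv (-1))
      rw [show (1 : ℤ) + -1 = 0 from by norm_num] at h1
      convert h1 using 1
      rw [sub_eq_add_neg]
      congr 1
      rw [Pi.single_neg]
    · rw [ev_mo, hm_sub, hm_single, hm_single, zpow_one, zpow_one, Units.val_mul]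
  | algebraMap c =>
    refine ⟨c • ((mo Λ (0 : Fin m → ℤ) : (LP Λ m)ˣ) : LP Λ m),
      Submodule.smul_mem _ _ (mo_mem (Adm_zero σ)), ?_⟩
    rw [map_smul, ev_mo, hm_zero, Units.val_one, Algebra.algebraMap_eq_smul_one]
  | add x y _ _ hx hy =>
    obtain ⟨x', hx1, hx2⟩ := hx
    obtain ⟨y', hy1, hy2⟩ := hy
    exact ⟨x' + y', Submodule.add_mem _ hx1 hy1, by rw [map_add, hx2, hy2]⟩
  | mul x y _ _ hx hy =>
    obtain ⟨x', hx1, hx2⟩ := hx
    obtain ⟨y', hy1, hy2⟩ := hy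
    refine ⟨x' * y', ?_, by rw [map_mul, hx2, hy2]⟩
    have := OO_mul hx1 hy1
    rwa [add_zero] at this

theorem ev_Yu (x : LP Λ m) : ev Λ (Yu Λ m) x = x := by
  have h1 : x = x.coeff.sum AddMonoidAlgebra.single := (AddMonoidAlgebra.sum_coeff_single x).symm
  conv_rhs => rw [h1]
  conv_lhs => rw [h1]
  rw [Finsupp.sum, map_sum]
  refine Finset.sum_congr rfl (fun α _ => ?_)
  rw [ev_single, hm_Yu, mo_val, AddMonoidAlgebra.smul_single, smul_eq_mul, mul_one]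

theorem mem_Prg_Yu {σ : Finset (Fin m)} (hσ : σ.Nonempty) {a : LP Λ m} :
    a ∈ Prg Λ (Yu Λ m) σ ↔ a ∈ OO Λ m 0 σ := by
  constructor
  · intro h
    obtain ⟨x, hx, hx2⟩ := exists_ev _ h
    rw [ev_Yu] at hx2
    rwa [← hx2]
  · intro h
    have := ev_mem_Prg (Yu Λ m) hσ h
    rwa [ev_Yu] at this

theorem pr_apply (h : Fin m → Qˣ) (g : Fin r → 𝕄) (y : Fin r → LP Λ m) :
    pr Λ h g y = ∑ a, ev Λ h (y a) • g a := rfl

theorem pr_smul (h : Fin m → Qˣ) (g : Fin r → 𝕄) (q : LP Λ m) (y : Fin r → LP Λ m) :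
    pr Λ h g (q • y) = ev Λ h q • pr Λ h g y := by
  rw [pr_apply, pr_apply, Finset.smul_sum]
  refine Finset.sum_congr rfl (fun a _ => ?_)
  rw [Pi.smul_apply, smul_eq_mul, map_mul, mul_smul]

theorem mem_twS (h : Fin m → Qˣ) (M : Finset (Fin m) → Submodule Λ 𝕄) (e : ℤ)
    (σ : Finset (Fin m)) (x : 𝕄) :
    x ∈ twS h M e σ ↔ ∀ v ∈ σ, (((h v) ^ (-e) : Qˣ) : Q) • x ∈ M σ := Iff.rfl

theorem twS_coe {Q 𝕄 : Type u} [CommRing Q] [Algebra Λ Q] [AddCommGroup 𝕄] [Module Λ 𝕄]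
    [Module Q 𝕄] [IsScalarTower Λ Q 𝕄] (h : Fin m → Qˣ)
    (M : Finset (Fin m) → Submodule Λ 𝕄) (e : ℤ) :
    cs (twS h M e) = tw h M e := rfl

end laurent

end

end Pool.Agent.DBX.SER
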