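import Pool.Agent.DBX.Interface
import Pool.Agent.DBX.Cd

set_option autoImplicit false

/-! # MP_2c751f_ag, squad DBX, area SER: definitions -/

namespace Pool.Agent.DBX.SER

open Pool.Agent.DBX

noncomputable section

universe u v w

/-! ## Monomials in units -/

/-- the monomial `∏ h_w ^ α_w` -/
def hm {Q : Type u} [CommRing Q] {m : ℕ} (h : Fin m → Qˣ) (α : Fin m → ℤ) : Qˣ :=
  ∏ w, h w ^ α w

/-- exponents of degree `e`, nonnegative outside `σ` -/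
def Adm {m : ℕ} (e : ℤ) (σ : Finset (Fin m)) : Set (Fin m → ℤ) :=
  {α | ∑ w, α w = e ∧ ∀ w, w ∉ σ → 0 ≤ α w}

/-- exponent of the monomial `∏_{u ∈ σ} (h_u / h_v)^N` -/
def dv {m : ℕ} (σ : Finset (Fin m)) (v : Fin m) (N : ℤ) : Fin m → ℤ :=
  fun w => (if w ∈ σ then N else 0) - (if w = v then N * (σ.card : ℤ) else 0)

/-! ## Laurent polynomials -/

/-- Laurent polynomials in `m` variables -/
abbrev LP (Λ : Type v) [CommRing Λ] (m : ℕ) : Type v := AddMonoidAlgebra Λ (Fin m → ℤ)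

/-- the monomial `Y^α` -/
def mo (Λ : Type v) [CommRing Λ] {m : ℕ} (α : Fin m → ℤ) : (LP Λ m)ˣ where
  val := AddMonoidAlgebra.single α 1
  inv := AddMonoidAlgebra.single (-α) 1
  val_inv := by
    rw [AddMonoidAlgebra.single_mul_single, add_neg_cancel, mul_one]; rfl
  inv_val := by
    rw [AddMonoidAlgebra.single_mul_single, neg_add_cancel, mul_one]; rfl

/-- the variables -/
def Yu (Λ : Type v) [CommRing Λ] (m : ℕ) : Fin m → (LP Λ m)ˣ := fun v => mo Λ (Pi.single v 1)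

/-- sections of `O(e)` over the intersection of the charts `v ∈ σ` -/
def OO (Λ : Type v) [CommRing Λ] (m : ℕ) (e : ℤ) (σ : Finset (Fin m)) : Submodule Λ (LP Λ m) :=
  AddMonoidAlgebra.supported Λ Λ (Adm e σ)

/-- sections of `O(e)^r` -/
def OX (Λ : Type v) [CommRing Λ] (m r : ℕ) (e : ℤ) (σ : Finset (Fin m)) :
    Submodule Λ (Fin r → LP Λ m) :=
  Submodule.pi Set.univ (fun _ => OO Λ m e σ)

section ev

variable {Λ : Type v} {Q : Type u} {𝕄 : Type w} [CommRing Λ] [CommRing Q] [Algebra Λ Q]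
  [AddCommGroup 𝕄] [Module Λ 𝕄] [Module Q 𝕄] [IsScalarTower Λ Q 𝕄] {m r : ℕ}

/-- `α ↦ h^α` as a monoid homomorphism -/
def hmHom (h : Fin m → Qˣ) : Multiplicative (Fin m → ℤ) →* Q where
  toFun α := (hm h α.toAdd : Q)
  map_one' := by simp [hm]
  map_mul' α β := by
    rw [← Units.val_mul]
    congr 1
    simp only [hm, toAdd_mul, Pi.add_apply, zpow_add, Finset.prod_mul_distrib]

/-- evaluation of Laurent polynomials at the units `h` -/
def ev (Λ : Type v) [CommRing Λ] [Algebra Λ Q] (h : Fin m → Qˣ) : LP Λ m →ₐ[Λ] Q :=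
  AddMonoidAlgebra.lift Λ Q (Fin m → ℤ) (hmHom h)

/-- the map `y ↦ ∑ y_a(h) g_a` -/
def pr (Λ : Type v) [CommRing Λ] [Algebra Λ Q] [Module Λ 𝕄] [IsScalarTower Λ Q 𝕄]
    (h : Fin m → Qˣ) (g : Fin r → 𝕄) : (Fin r → LP Λ m) →ₗ[Λ] 𝕄 where
  toFun y := ∑ a, ev Λ h (y a) • g a
  map_add' x y := by
    simp only [Pi.add_apply, map_add, add_smul, Finset.sum_add_distrib]
  map_smul' c y := by
    simp only [Pi.smul_apply, map_smul, RingHom.id_apply, Finset.smul_sum, smul_assoc]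

/-- the twist as a submodule -/
def twS (h : Fin m → Qˣ) (M : Finset (Fin m) → Submodule Λ 𝕄) (e : ℤ) (σ : Finset (Fin m)) :
    Submodule Λ 𝕄 where
  carrier := {x | ∀ v ∈ σ, (((h v) ^ (-e) : Qˣ) : Q) • x ∈ M σ}
  zero_mem' := by
    intro v _
    rw [smul_zero]
    exact (M σ).zero_mem
  add_mem' := by
    intro x y hx hy v hv
    rw [smul_add]
    exact (M σ).add_mem (hx v hv) (hy v hv)
  smul_mem' := by
    intro c x hx v hv
    have h1 : (((h v) ^ (-e) : Qˣ) : Q) • (c • x) = c • ((((h v) ^ (-e) : Qˣ) : Q) • x) := by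
      rw [← IsScalarTower.algebraMap_smul Q c x, ← IsScalarTower.algebraMap_smul Q c,
        smul_smul, smul_smul, mul_comm]
    rw [h1]
    exact (M σ).smul_mem c (hx v hv)

/-- `g` generates `M(K0)` -/
def IsGen (h : Fin m → Qˣ) (M : Finset (Fin m) → Submodule Λ 𝕄) (K0 : ℤ) (g : Fin r → 𝕄) :
    Prop :=
  (∀ a v, (((h v) ^ (-K0) : Qˣ) : Q) • g a ∈ M {v}) ∧
  ∀ v, ∀ x ∈ M {v}, ∃ c : Fin r → Q, (∀ a, c a ∈ Prg Λ h {v}) ∧
    x = ∑ a, c a • ((((h v) ^ (-K0) : Qˣ) : Q) • g a)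

/-- the kernel of `O(-K0)^r → M` -/
def Ker (h : Fin m → Qˣ) (K0 : ℤ) (g : Fin r → 𝕄) (σ : Finset (Fin m)) :
    Submodule Λ (Fin r → LP Λ m) :=
  OX Λ m r (-K0) σ ⊓ LinearMap.ker (pr Λ h g)

end ev

/-! ## Cohomology -/

section coho

variable {𝔸 : Type*} [AddCommGroup 𝔸] {m : ℕ}

/-- the cochains of degree (= card) `j` -/
def InCj (S : Finset (Fin m) → Set 𝔸) (j : ℕ) (x : Finset (Fin m) → 𝔸) : Prop :=
  InC S x ∧ ∀ σ, σ.card ≠ j → x σ = 0

/-- `H^j = 0` -/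
def Van (S : Finset (Fin m) → Set 𝔸) (j : ℕ) : Prop :=
  ∀ x, InCj S j x → cd x = 0 → ∃ y, InC S y ∧ cd y = x

/-- `H^j` is finitely generated -/
def FinC (Λ : Type*) [CommRing Λ] [Module Λ 𝔸] (S : Finset (Fin m) → Set 𝔸) (j : ℕ) : Prop :=
  ∃ G : Finset (Finset (Fin m) → 𝔸), (∀ x ∈ G, InC S x ∧ cd x = 0) ∧
    ∀ x, InCj S j x → cd x = 0 →
      ∃ y, InC S y ∧ x - cd y ∈ Submodule.span Λ (G : Set (Finset (Fin m) → 𝔸))

/-- a family of submodules as a family of sets -/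
abbrev cs {Λ : Type*} [CommRing Λ] [Module Λ 𝔸] (S : Finset (Fin m) → Submodule Λ 𝔸) :
    Finset (Fin m) → Set 𝔸 := fun σ => (S σ : Set 𝔸)

/-- monotone families -/
def Mono {Λ : Type*} [CommRing Λ] [Module Λ 𝔸] (S : Finset (Fin m) → Submodule Λ 𝔸) : Prop :=
  ∀ σ τ, σ.Nonempty → σ ⊆ τ → S σ ≤ S τ

end coho

end

end Pool.Agent.DBX.SER
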