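import Pool.Agent.DBX.SER.Stmts

set_option autoImplicit false

/-! # MP_2c751f_ag, squad DBX, area SER: the descending inductions -/

namespace Pool.Agent.DBX.SER

open Pool.Agent.DBX

noncomputable section

universe u v w

section
variable {𝔸 : Type*} [AddCommGroup 𝔸] {m : ℕ}

theorem InCj_big {S : Finset (Fin m) → Set 𝔸} {j : ℕ} (hj : m < j) {x : Finset (Fin m) → 𝔸}
    (hx : InCj S j x) : x = 0 := by
  funext σ
  refine hx.2 σ ?_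
  have := Finset.card_le_univ σ
  rw [Fintype.card_fin] at this
  omega

theorem Van_big (S : Finset (Fin m) → Set 𝔸) (h0 : ∀ σ, (0 : 𝔸) ∈ S σ) {j : ℕ} (hj : m < j) :
    Van S j := by
  intro x hx _
  refine ⟨0, ⟨rfl, fun σ _ => h0 σ⟩, ?_⟩
  rw [InCj_big hj hx, cd_zero]

theorem FinC_big (Λ : Type*) [CommRing Λ] [Module Λ 𝔸] (S : Finset (Fin m) → Set 𝔸)
    (h0 : ∀ σ, (0 : 𝔸) ∈ S σ) {j : ℕ} (hj : m < j) :
    FinC Λ S j := by
  refine ⟨∅, by simp, ?_⟩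
  intro x hx _
  refine ⟨0, ⟨rfl, fun σ _ => h0 σ⟩, ?_⟩
  rw [InCj_big hj hx, cd_zero, sub_zero]
  exact Submodule.zero_mem _

end

theorem OX_Mono {Λ : Type v} [CommRing Λ] {m r : ℕ} (e : ℤ) : Mono (OX Λ m r e) :=
  fun _ _ _ h => OX_mono e h

theorem twS_zero {Λ : Type v} {Q 𝕄 : Type u} [CommRing Λ] [CommRing Q] [Algebra Λ Q]
    [AddCommGroup 𝕄] [Module Λ 𝕄] [Module Q 𝕄] [IsScalarTower Λ Q 𝕄] {m : ℕ} (h : Fin m → Qˣ)
    (M : Finset (Fin m) → Submodule Λ 𝕄) (σ : Finset (Fin m)) (hσ : σ.Nonempty) (x : 𝕄) :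
    x ∈ twS h M 0 σ ↔ x ∈ M σ := by
  rw [mem_twS]
  simp only [neg_zero, zpow_zero, Units.val_one, one_smul]
  constructor
  · intro h1
    obtain ⟨v, hv⟩ := hσ
    exact h1 v hv
  · intro h1 v _
    exact h1

/-- one step of the induction for finiteness -/
theorem FN1_step (hlef : Stmt_LEF.{v, v, u}) (hoxf : Stmt_OXF.{v}) (hgen : Stmt_GEN.{u, v})
    (hsuj : Stmt_SUJ.{u, v}) (hker : Stmt_KER.{u, v})
    {Λ : Type v} [CommRing Λ] [IsNoetherianRing Λ] {m : ℕ} {j : ℕ}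
    (ih : ∀ (Q 𝕄 : Type v) [CommRing Q] [Algebra Λ Q] [AddCommGroup 𝕄] [Module Λ 𝕄]
      [Module Q 𝕄] [IsScalarTower Λ Q 𝕄] (h : Fin m → Qˣ)
      (M : Finset (Fin m) → Submodule Λ 𝕄), Coh h M → FinC Λ (cs M) (j + 1))
    (Q 𝕄 : Type u) [CommRing Q] [Algebra Λ Q] [AddCommGroup 𝕄] [Module Λ 𝕄]
      [Module Q 𝕄] [IsScalarTower Λ Q 𝕄] (h : Fin m → Qˣ)
      (M : Finset (Fin m) → Submodule Λ 𝕄) (hM : Coh h M) : FinC Λ (cs M) j := by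
  obtain ⟨K0, r, g, hg⟩ := hgen Λ Q 𝕄 m h M hM
  obtain ⟨hk1, hk2⟩ := hker Λ Q 𝕄 m r h K0 g
  refine hlef Λ (Fin r → LP Λ m) 𝕄 m (OX Λ m r (-K0)) (Ker (Λ := Λ) h K0 g) M (pr Λ h g)
    (OX_Mono _) ?_ ?_ j (ih _ _ _ _ hk1) (hoxf Λ m r (-K0) j)
  · intro σ _ x
    unfold Ker
    rw [Submodule.mem_inf, LinearMap.mem_ker]
  · intro σ hσ y
    have h1 := hsuj Λ Q 𝕄 m r h M K0 g hM hg 0 σ hσ y
    rw [twS_zero h M σ hσ, zero_sub] at h1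
    exact h1

theorem FN1_self (hlef : Stmt_LEF.{v, v, v}) (hoxf : Stmt_OXF.{v}) (hgen : Stmt_GEN.{v, v})
    (hsuj : Stmt_SUJ.{v, v}) (hker : Stmt_KER.{v, v})
    (Λ : Type v) [CommRing Λ] [IsNoetherianRing Λ] (m : ℕ) (n : ℕ) : ∀ j, m < j + n →
    ∀ (Q 𝕄 : Type v) [CommRing Q] [Algebra Λ Q] [AddCommGroup 𝕄] [Module Λ 𝕄]
      [Module Q 𝕄] [IsScalarTower Λ Q 𝕄] (h : Fin m → Qˣ)
      (M : Finset (Fin m) → Submodule Λ 𝕄), Coh h M → FinC Λ (cs M) j := by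
  induction n with
  | zero =>
    intro j hj Q 𝕄 _ _ _ _ _ _ h M _
    exact FinC_big Λ _ (fun σ => (M σ).zero_mem) hj
  | succ n ih =>
    intro j hj Q 𝕄 _ _ _ _ _ _ h M hM
    exact FN1_step hlef hoxf hgen hsuj hker (ih (j + 1) (by omega)) Q 𝕄 h M hM

theorem FN1 (hlef : Stmt_LEF.{v, v, u}) (hoxf : Stmt_OXF.{v}) (hgen : Stmt_GEN.{u, v})
    (hsuj : Stmt_SUJ.{u, v}) (hker : Stmt_KER.{u, v})
    (hlef' : Stmt_LEF.{v, v, v}) (hgen' : Stmt_GEN.{v, v})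
    (hsuj' : Stmt_SUJ.{v, v}) (hker' : Stmt_KER.{v, v}) : Stmt_FN1.{u, v} := by
  intro Λ Q 𝕄 _ _ _ _ _ _ _ _ m h M hM j
  exact FN1_step hlef hoxf hgen hsuj hker
    (FN1_self hlef' hoxf hgen' hsuj' hker' Λ m (m + 1) (j + 1) (by omega)) Q 𝕄 h M hM

/-- one step of the induction for vanishing -/
theorem FN2_step (hles : Stmt_LES.{v, v, u}) (hoxv : Stmt_OXV.{v}) (hgen : Stmt_GEN.{u, v})
    (hsuj : Stmt_SUJ.{u, v}) (hker : Stmt_KER.{u, v})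
    {Λ : Type v} [CommRing Λ] [IsNoetherianRing Λ] {m : ℕ} {j : ℕ} (hj : 2 ≤ j)
    (ih : ∀ (Q 𝕄 : Type v) [CommRing Q] [Algebra Λ Q] [AddCommGroup 𝕄] [Module Λ 𝕄]
      [Module Q 𝕄] [IsScalarTower Λ Q 𝕄] (h : Fin m → Qˣ)
      (M : Finset (Fin m) → Submodule Λ 𝕄), Coh h M →
      ∃ e0 : ℤ, ∀ e : ℤ, e0 ≤ e → Van (cs (twS h M e)) (j + 1))
    (Q 𝕄 : Type u) [CommRing Q] [Algebra Λ Q] [AddCommGroup 𝕄] [Module Λ 𝕄]
      [Module Q 𝕄] [IsScalarTower Λ Q 𝕄] (h : Fin m → Qˣ)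
      (M : Finset (Fin m) → Submodule Λ 𝕄) (hM : Coh h M) :
      ∃ e0 : ℤ, ∀ e : ℤ, e0 ≤ e → Van (cs (twS h M e)) j := by
  obtain ⟨K0, r, g, hg⟩ := hgen Λ Q 𝕄 m h M hM
  obtain ⟨hk1, hk2⟩ := hker Λ Q 𝕄 m r h K0 g
  obtain ⟨e1, he1⟩ := ih _ _ _ _ hk1
  refine ⟨max e1 K0, fun e he z hz hz0 => ?_⟩
  obtain ⟨y, hy, hy0, hyz⟩ := hles Λ (Fin r → LP Λ m) 𝕄 m (OX Λ m r (e - K0))
    (twS (Yu Λ m) (Ker (Λ := Λ) h K0 g) e) (twS h M e) (pr Λ h g)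
    (OX_Mono _) (fun σ hσ x => hk2 e σ hσ x)
    (fun σ hσ y => hsuj Λ Q 𝕄 m r h M K0 g hM hg e σ hσ y) j
    (he1 e (le_trans (le_max_left _ _) he)) z hz hz0
  have h2 : 0 ≤ e - K0 := by
    have := le_trans (le_max_right e1 (K0 : ℤ)) he
    omega
  obtain ⟨x, hx, hxy⟩ := (hoxv Λ m r (e - K0) h2).1 j hj y hy hy0
  refine ⟨fun σ => pr Λ h g (x σ), ⟨?_, fun σ hσ => ?_⟩, ?_⟩
  · change pr Λ h g (x ∅) = 0
    rw [hx.1, map_zero]
  · exact (hsuj Λ Q 𝕄 m r h M K0 g hM hg e σ hσ _).mpr ⟨x σ, hx.2 σ hσ, rfl⟩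
  · have h3 := cd_map (pr Λ h g).toAddMonoidHom x
    simp only [LinearMap.toAddMonoidHom_coe] at h3
    rw [h3]
    funext σ
    rw [hxy, hyz]

theorem FN2_self (hles : Stmt_LES.{v, v, v}) (hoxv : Stmt_OXV.{v}) (hgen : Stmt_GEN.{v, v})
    (hsuj : Stmt_SUJ.{v, v}) (hker : Stmt_KER.{v, v})
    (Λ : Type v) [CommRing Λ] [IsNoetherianRing Λ] (m : ℕ) (n : ℕ) : ∀ j, 2 ≤ j → m < j + n →
    ∀ (Q 𝕄 : Type v) [CommRing Q] [Algebra Λ Q] [AddCommGroup 𝕄] [Module Λ 𝕄]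
      [Module Q 𝕄] [IsScalarTower Λ Q 𝕄] (h : Fin m → Qˣ)
      (M : Finset (Fin m) → Submodule Λ 𝕄), Coh h M →
      ∃ e0 : ℤ, ∀ e : ℤ, e0 ≤ e → Van (cs (twS h M e)) j := by
  induction n with
  | zero =>
    intro j _ hj Q 𝕄 _ _ _ _ _ _ h M _
    exact ⟨0, fun e _ => Van_big _ (fun σ => (twS h M e σ).zero_mem) hj⟩
  | succ n ih =>
    intro j hj2 hj Q 𝕄 _ _ _ _ _ _ h M hM
    exact FN2_step hles hoxv hgen hsuj hker hj2 (ih (j + 1) (by omega) (by omega)) Q 𝕄 h M hM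

theorem FN2 (hles : Stmt_LES.{v, v, u}) (hoxv : Stmt_OXV.{v}) (hgen : Stmt_GEN.{u, v})
    (hsuj : Stmt_SUJ.{u, v}) (hker : Stmt_KER.{u, v})
    (hles' : Stmt_LES.{v, v, v}) (hgen' : Stmt_GEN.{v, v})
    (hsuj' : Stmt_SUJ.{v, v}) (hker' : Stmt_KER.{v, v}) : Stmt_FN2.{u, v} := by
  intro Λ Q 𝕄 _ _ _ _ _ _ _ _ m h M hM j hj
  exact FN2_step hles hoxv hgen hsuj hker hj
    (FN2_self hles' hoxv hgen' hsuj' hker' Λ m (m + 1) (j + 1) (by omega) (by omega)) Q 𝕄 h M hM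

/-! ## SER1 and SER2 -/

theorem SE1 (h1 : Stmt_FN1.{u, v}) : Stmt_SER1.{u, v} := by
  classical
  intro Λ Q 𝕄 _ _ _ _ _ _ _ _ m h M hM
  choose G hG hG2 using h1 Λ Q 𝕄 m h M hM
  refine ⟨(Finset.range (m + 1)).biUnion G, ?_, ?_⟩
  · intro x hx
    rw [Finset.mem_biUnion] at hx
    obtain ⟨j, _, hj⟩ := hx
    exact hG j x hj
  · intro x hx hx0
    have h2 : ∀ j, InCj (cs M) j (cpt j x) := by
      intro j
      refine ⟨⟨?_, fun σ hσ => ?_⟩, fun σ hσ => cpt_of_ne x hσ⟩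
      · unfold cpt
        split_ifs
        · exact hx.1
        · rfl
      · unfold cpt
        split_ifs
        · exact hx.2 σ hσ
        · exact (M σ).zero_mem
    choose y hy hy2 using fun j => hG2 j (cpt j x) (h2 j) (cd_cpt_zero hx0 j)
    refine ⟨∑ j ∈ Finset.range (m + 1), y j, ⟨?_, fun σ hσ => ?_⟩, ?_⟩
    · rw [Finset.sum_apply]
      exact Finset.sum_eq_zero (fun j _ => (hy j).1)
    · rw [Finset.sum_apply]
      exact (M σ).sum_mem (fun j _ => (hy j).2 σ hσ)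
    · have h3 := sum_cpt x
      rw [Fintype.card_fin] at h3
      have h5 : x - cd (∑ j ∈ Finset.range (m + 1), y j) =
          ∑ j ∈ Finset.range (m + 1), (cpt j x - cd (y j)) := by
        rw [Finset.sum_sub_distrib, ← h3, cd_sum]
      rw [h5]
      refine Submodule.sum_mem _ (fun j hj => ?_)
      refine Submodule.span_mono ?_ (hy2 j)
      intro z hz
      exact Finset.mem_coe.mpr (Finset.mem_biUnion.mpr ⟨j, hj, Finset.mem_coe.mp hz⟩)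

theorem SE2 (h1 : Stmt_FN2.{u, v}) : Stmt_SER2.{u, v} := by
  classical
  intro Λ Q 𝕄 _ _ _ _ _ _ _ _ m h M hM
  choose! e0 he0 using h1 Λ Q 𝕄 m h M hM
  refine ⟨∑ j ∈ Finset.range (m + 1), |e0 j|, ?_⟩
  intro e he x hx hx0 hx1
  have h2 : ∀ j, InCj (cs (twS h M e)) j (cpt j x) := by
    intro j
    refine ⟨⟨?_, fun σ hσ => ?_⟩, fun σ hσ => cpt_of_ne x hσ⟩
    · unfold cpt
      split_ifs
      · exact hx.1
      · rfl
    · unfold cpt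
      split_ifs
      · exact hx.2 σ hσ
      · exact (twS h M e σ).zero_mem
  have h4 : ∀ j ∈ Finset.range (m + 1), ∃ y, InC (tw h M e) y ∧ cd y = cpt j x := by
    intro j hj
    by_cases hj2 : 2 ≤ j
    · have h5 : e0 j ≤ e := by
        refine le_trans (le_trans (le_abs_self _) ?_) he
        exact Finset.single_le_sum (f := fun j => |e0 j|) (fun i _ => abs_nonneg _) hj
      exact he0 j hj2 e h5 (cpt j x) (h2 j) (cd_cpt_zero hx0 j)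
    · refine ⟨0, ⟨rfl, fun σ _ => (twS h M e σ).zero_mem⟩, ?_⟩
      rw [cd_zero]
      funext σ
      unfold cpt
      split_ifs with h6
      · rcases Nat.lt_or_ge σ.card 1 with h7 | h7
        · have h8 : σ = ∅ := Finset.card_eq_zero.mp (by omega)
          subst h8
          rw [hx.1]; rfl
        · obtain ⟨v, rfl⟩ := Finset.card_eq_one.mp (show σ.card = 1 by omega)
          rw [hx1]; rfl
      · rfl
  choose! y hy hy2 using h4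
  refine ⟨∑ j ∈ Finset.range (m + 1), y j, ⟨?_, fun σ hσ => ?_⟩, ?_⟩
  · rw [Finset.sum_apply]
    exact Finset.sum_eq_zero (fun j hj => (hy j hj).1)
  · rw [Finset.sum_apply]
    exact (twS h M e σ).sum_mem (fun j hj => (hy j hj).2 σ hσ)
  · have h3 := sum_cpt x
    rw [Fintype.card_fin] at h3
    rw [cd_sum]
    conv_rhs => rw [h3]
    exact Finset.sum_congr rfl (fun j hj => hy2 j hj)

end

end Pool.Agent.DBX.SER
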