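import Pool.Agent.DBX.SER.Bas

set_option autoImplicit false

/-! # MP_2c751f_ag, squad DBX, area SER: the statements of the modules -/

namespace Pool.Agent.DBX.SER

open Pool.Agent.DBX

noncomputable section

universe u v w

/-- LES: if `0 → K → S → T → 0` is exact and `H^{j+1}(K) = 0`, then cocycles lift. -/
def Stmt_LES : Prop :=
  ∀ (Λ : Type v) (𝔸 : Type u) (𝔹 : Type w) [CommRing Λ] [AddCommGroup 𝔸] [Module Λ 𝔸]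
    [AddCommGroup 𝔹] [Module Λ 𝔹] (m : ℕ) (S K : Finset (Fin m) → Submodule Λ 𝔸)
    (T : Finset (Fin m) → Submodule Λ 𝔹) (f : 𝔸 →ₗ[Λ] 𝔹), Mono S →
    (∀ σ, σ.Nonempty → ∀ x, x ∈ K σ ↔ x ∈ S σ ∧ f x = 0) →
    (∀ σ, σ.Nonempty → ∀ y, y ∈ T σ ↔ ∃ x ∈ S σ, f x = y) →
    ∀ j, Van (cs K) (j + 1) → ∀ z, InCj (cs T) j z → cd z = 0 →
      ∃ y, InCj (cs S) j y ∧ cd y = 0 ∧ ∀ σ, f (y σ) = z σ

/-- LEF: if `0 → K → S → T → 0` is exact, `H^{j+1}(K)` and `H^j(S)` are finitely generated, then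
`H^j(T)` is finitely generated. -/
def Stmt_LEF : Prop :=
  ∀ (Λ : Type v) (𝔸 : Type u) (𝔹 : Type w) [CommRing Λ] [AddCommGroup 𝔸] [Module Λ 𝔸]
    [AddCommGroup 𝔹] [Module Λ 𝔹] [IsNoetherianRing Λ] (m : ℕ)
    (S K : Finset (Fin m) → Submodule Λ 𝔸)
    (T : Finset (Fin m) → Submodule Λ 𝔹) (f : 𝔸 →ₗ[Λ] 𝔹), Mono S →
    (∀ σ, σ.Nonempty → ∀ x, x ∈ K σ ↔ x ∈ S σ ∧ f x = 0) →
    (∀ σ, σ.Nonempty → ∀ y, y ∈ T σ ↔ ∃ x ∈ S σ, f x = y) →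
    ∀ j, FinC Λ (cs K) (j + 1) → FinC Λ (cs S) j → FinC Λ (cs T) j

/-- OXF: the cohomology of `O(e)^r` is finitely generated. -/
def Stmt_OXF : Prop :=
  ∀ (Λ : Type v) [CommRing Λ] [IsNoetherianRing Λ] (m r : ℕ) (e : ℤ) (j : ℕ),
    FinC Λ (cs (OX Λ m r e)) j

/-- OXV: the cohomology of `O(e)^r`, `e ≥ 0`. -/
def Stmt_OXV : Prop :=
  ∀ (Λ : Type v) [CommRing Λ] (m r : ℕ) (e : ℤ), 0 ≤ e →
    (∀ j, 2 ≤ j → Van (cs (OX Λ m r e)) j) ∧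
    ∀ z, InCj (cs (OX Λ m r e)) 1 z → cd z = 0 → ∃ p : Fin r → LP Λ m, (∀ v, z {v} = p) ∧
      ∀ a α, (p a).coeff α ≠ 0 → (∀ w, 0 ≤ α w) ∧ ∑ w, α w = e

/-- DEN: denominators, and noetherian rings. -/
def Stmt_DEN : Prop :=
  (∀ (Λ : Type v) (Q : Type u) (𝕄 : Type u) [CommRing Λ] [CommRing Q] [Algebra Λ Q]
    [AddCommGroup 𝕄] [Module Λ 𝕄] [Module Q 𝕄] [IsScalarTower Λ Q 𝕄] (m : ℕ) (h : Fin m → Qˣ)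
    (M : Finset (Fin m) → Submodule Λ 𝕄), Coh h M → ∀ (τ : Finset (Fin m)) (v : Fin m), v ∈ τ →
    ∀ x ∈ M τ, ∃ N0 : ℕ, ∀ N : ℕ, N0 ≤ N → (hm h (dv τ v N) : Q) • x ∈ M {v}) ∧
  (∀ (Λ : Type v) [CommRing Λ] (m r : ℕ) (e : ℤ) (τ : Finset (Fin m)) (v : Fin m),
    ∀ y ∈ OX Λ m r e τ, ∃ N0 : ℕ, ∀ N : ℕ, N0 ≤ N →
      (mo Λ (dv τ v N) : LP Λ m) • y ∈ OX Λ m r e {v}) ∧
  (∀ (Λ : Type v) (Q : Type u) [CommRing Λ] [CommRing Q] [Algebra Λ Q] [IsNoetherianRing Λ] (m : ℕ)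
    (h : Fin m → Qˣ) (σ : Finset (Fin m)), IsNoetherianRing (Prg Λ h σ))

/-- GEN: finitely many generators of a large twist. -/
def Stmt_GEN : Prop :=
  ∀ (Λ : Type v) (Q : Type u) (𝕄 : Type u) [CommRing Λ] [CommRing Q] [Algebra Λ Q]
    [AddCommGroup 𝕄] [Module Λ 𝕄] [Module Q 𝕄] [IsScalarTower Λ Q 𝕄] (m : ℕ) (h : Fin m → Qˣ)
    (M : Finset (Fin m) → Submodule Λ 𝕄), Coh h M →
    ∃ (K0 r : ℕ) (g : Fin r → 𝕄), IsGen h M K0 g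

/-- GNN: generators, in the situation of SER3. -/
def Stmt_GNN : Prop :=
  ∀ (Λ : Type v) (Q : Type u) (𝕄 : Type u) [CommRing Λ] [CommRing Q] [Algebra Λ Q]
    [AddCommGroup 𝕄] [Module Λ 𝕄] [Module Q 𝕄] [IsScalarTower Λ Q 𝕄] (m : ℕ) (h : Fin m → Qˣ)
    (M : Finset (Fin m) → Submodule Λ 𝕄) (N : ℕ → Submodule Λ 𝕄), Coh h M →
    (N 0).FG → (∀ e, ∀ x, x ∈ N (e + 1) ↔ ∃ y : Fin m → 𝕄, (∀ v, y v ∈ N e) ∧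
      x = ∑ v, ((h v : Qˣ) : Q) • y v) →
    (∀ v, ∀ x, x ∈ M {v} ↔ ∃ e : ℕ, (((h v) ^ e : Qˣ) : Q) • x ∈ N e) →
    ∃ (K0 r : ℕ) (g : Fin r → 𝕄), IsGen h M K0 g ∧ ∀ a, g a ∈ N K0

/-- SUJ: `O(e - K0)^r → M(e)` is onto. -/
def Stmt_SUJ : Prop :=
  ∀ (Λ : Type v) (Q : Type u) (𝕄 : Type u) [CommRing Λ] [CommRing Q] [Algebra Λ Q]
    [AddCommGroup 𝕄] [Module Λ 𝕄] [Module Q 𝕄] [IsScalarTower Λ Q 𝕄] (m r : ℕ) (h : Fin m → Qˣ)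
    (M : Finset (Fin m) → Submodule Λ 𝕄) (K0 : ℤ) (g : Fin r → 𝕄), Coh h M → IsGen h M K0 g →
    ∀ (e : ℤ) (σ : Finset (Fin m)), σ.Nonempty → ∀ y, y ∈ twS h M e σ ↔
      ∃ x ∈ OX Λ m r (e - K0) σ, pr Λ h g x = y

/-- KER: the kernel of `O(-K0)^r → M` is coherent, and its twists. -/
def Stmt_KER : Prop :=
  ∀ (Λ : Type v) (Q : Type u) (𝕄 : Type u) [CommRing Λ] [CommRing Q] [Algebra Λ Q]
    [AddCommGroup 𝕄] [Module Λ 𝕄] [Module Q 𝕄] [IsScalarTower Λ Q 𝕄] [IsNoetherianRing Λ]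
    (m r : ℕ) (h : Fin m → Qˣ) (K0 : ℤ) (g : Fin r → 𝕄),
    Coh (Yu Λ m) (Ker (Λ := Λ) h K0 g) ∧
    ∀ (e : ℤ) (σ : Finset (Fin m)), σ.Nonempty → ∀ x, x ∈ twS (Yu Λ m) (Ker (Λ := Λ) h K0 g) e σ ↔
      x ∈ OX Λ m r (e - K0) σ ∧ pr Λ h g x = 0

/-- FN1: finite generation, all systems. -/
def Stmt_FN1 : Prop :=
  ∀ (Λ : Type v) (Q 𝕄 : Type u) [CommRing Λ] [CommRing Q] [Algebra Λ Q] [AddCommGroup 𝕄] [Module Λ 𝕄]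
    [Module Q 𝕄] [IsScalarTower Λ Q 𝕄] [IsNoetherianRing Λ] (m : ℕ) (h : Fin m → Qˣ)
    (M : Finset (Fin m) → Submodule Λ 𝕄), Coh h M → ∀ j, FinC Λ (cs M) j

/-- FN2: vanishing of the cohomology of large twists, all systems. -/
def Stmt_FN2 : Prop :=
  ∀ (Λ : Type v) (Q 𝕄 : Type u) [CommRing Λ] [CommRing Q] [Algebra Λ Q] [AddCommGroup 𝕄] [Module Λ 𝕄]
    [Module Q 𝕄] [IsScalarTower Λ Q 𝕄] [IsNoetherianRing Λ] (m : ℕ) (h : Fin m → Qˣ)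
    (M : Finset (Fin m) → Submodule Λ 𝕄), Coh h M → ∀ j, 2 ≤ j →
    ∃ e0 : ℤ, ∀ e : ℤ, e0 ≤ e → Van (cs (twS h M e)) j

end

end Pool.Agent.DBX.SER
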